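import Pool.Agent.Work.MP_122e00_nt.Gen.Defs

set_option autoImplicit false

/-!
# Upper bounds for shifted divisor sums, all `r = s + 1`: statements

G, AT: from `Dom` and `Mean` to the upper bound.  M: mean values of structure sums.
B: the simplest scheme and the closed form bound for all `r`.
-/

namespace Pool.Agent.Work.MP_122e00_nt.Gen

open Finset Filter Topology MeasureTheory

open scoped ArithmeticFunction.vonMangoldt ArithmeticFunction.zeta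

open Two

/-! ## G: the abstract theorem -/

/-- G1: the divisor sum (compare `Hyb.claimP8`). -/
def claimG1 : Prop := ∀ (s : ℕ) (θ : ℝ) (ψ : (Fin s → ℝ) → ℝ), 1 ≤ s → 0 < θ → θ < 1 / 2 →
    Wt s θ ψ → ∀ (X : ℝ) (m n : ℕ) (z : ℤ), 1 < X → n ≠ 0 → (m : ℤ) - z = n →
    TS (Real.log X) s 0 n (fun _ v => gs ψ v) = (s + 1) * Apsi ψ X z m

/-- G2: the left over part is tiny (compare `Hyb.claimS3`). -/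
def claimG2 : Prop := ∀ (s : ℕ) (C₀ M₀ c₁ : ℝ), 1 ≤ C₀ → 0 < M₀ → M₀ < 1 → 0 < c₁ →
    ∀ᶠ X : ℝ in atTop, ∀ n : ℕ, X / Real.log X ≤ (n : ℝ) → (n : ℝ) ≤ X →
      C₀ ^ ⌊c₁ * Real.log X⌋₊ * TS (Real.log X) s ⌊c₁ * Real.log X⌋₊ n
        (FT ⌊c₁ * Real.log X⌋₊ M₀) ≤ X⁻¹

/-- G3: the sum over `X / log X < n ≤ X` (compare `Hyb.claimS4`, `Hyb.claimS5`). -/
def claimG3 : Prop := ∀ (s h : ℕ) (θ : ℝ) (ψ : (Fin s → ℝ) → ℝ), 1 ≤ s → h ≠ 0 → 0 < θ →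
    θ < 1 / 2 → Wt s θ ψ → ∀ H : ℝ → ℕ → ℝ, Dom s ψ H →
    ∀ᶠ X : ℝ in atTop, DS s h ⌊X / Real.log X⌋₊ ⌊X⌋₊ ≤
      (s + 1) / 2 * (∑ n ∈ Finset.Ioc ⌊X / Real.log X⌋₊ ⌊X⌋₊, Apsi ψ X (-h) n * H X n +
        ∑ n ∈ Finset.Ioc ⌊X / Real.log X⌋₊ ⌊X⌋₊, Apsi ψ X h n * H X n) + X ^ (1 / 2 : ℝ)

/-- G4: from `X / log X < n ≤ X` to all `n` (compare `Hyb.claimS6`). -/
def claimG4 : Prop := ∀ (s h : ℕ) (E : ℝ), 0 ≤ E →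
    (∀ δ : ℝ, 0 < δ → ∀ᶠ X : ℝ in atTop, DS s h ⌊X / Real.log X⌋₊ ⌊X⌋₊ ≤
      (E + δ) * (X * (Real.log X) ^ (2 * s))) →
    ∀ δ : ℝ, 0 < δ → ∀ᶠ X : ℝ in atTop, DS s h 0 ⌊X⌋₊ ≤ (E + δ) * (X * (Real.log X) ^ (2 * s))

/-- The abstract theorem. -/
def claimAT : Prop := ∀ (s h : ℕ) (θ : ℝ) (ψ : (Fin s → ℝ) → ℝ), 1 ≤ s → h ≠ 0 → 0 < θ →
    θ < 1 / 2 → Wt s θ ψ → ∀ (H : ℝ → ℕ → ℝ) (I : ℝ), 0 ≤ I → Dom s ψ H → Mean s h ψ H I →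
    ∀ δ : ℝ, 0 < δ → ∀ᶠ X : ℝ in atTop, DS s h 0 ⌊X⌋₊ ≤
      (Csing s h * ((s + 1) * ∫ y in O1 s, ψ y) * I + δ) * (X * (Real.log X) ^ (2 * s))

/-! ## M: mean values of structure sums -/

/-- M1: one structure sum, with signs. -/
def claimM1 : Prop := ∀ (s k h : ℕ) (θ : ℝ) (ψ : (Fin s → ℝ) → ℝ), 1 ≤ s → h ≠ 0 → 0 < θ →
    θ < 1 / 2 → Wt s θ ψ → ∀ (F : (Fin k → ℝ) → (Fin (s + 1) → ℝ) → ℝ) (B : ℝ),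
    (∀ x v, |F x v| ≤ B) →
    (∀ᵐ y ∂(volume.restrict (Sim k s)), ContinuousAt (ext F) (y, 1 - ∑ i, y i)) →
    Mean s h ψ (fun X n => TS (Real.log X) s k n F)
      (∫ y in Sim k s, ext F (y, 1 - ∑ i, y i) * den y)

/-- M2: sums. -/
def claimM2 : Prop := ∀ (s h : ℕ) (ψ : (Fin s → ℝ) → ℝ) (H₁ H₂ : ℝ → ℕ → ℝ) (I₁ I₂ : ℝ),
    Mean s h ψ H₁ I₁ → Mean s h ψ H₂ I₂ →
    Mean s h ψ (fun X n => H₁ X n + H₂ X n) (I₁ + I₂)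

/-- M4: the tail of a chain of marks (from U2 and U7; compare `Hyb.claimS2`). -/
def claimM4 : Prop := ∀ (s h : ℕ) (θ : ℝ) (ψ : (Fin s → ℝ) → ℝ), 1 ≤ s → h ≠ 0 → 0 < θ →
    θ < 1 / 2 → Wt s θ ψ → ∀ (C₀ M₀ : ℝ), 1 ≤ C₀ → 0 < M₀ → M₀ < 1 →
    ∃ c₀ : ℝ, 0 < c₀ ∧ ∀ c₁ : ℝ, 0 < c₁ → c₁ ≤ c₀ → ∀ ε : ℝ, 0 < ε → ∃ K : ℕ,
    ∀ FF : (k : ℕ) → (Fin k → ℝ) → (Fin (s + 1) → ℝ) → ℝ,
    (∀ k x v, 0 ≤ FF (k + 1) x v ∧ FF (k + 1) x v ≤ C₀ ^ (k + 1) * FL k M₀ x v) →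
    ∀ᶠ X : ℝ in atTop, ∀ z : ℤ, z.natAbs = h →
    ∑ n ∈ Finset.Ioc ⌊X / Real.log X⌋₊ ⌊X⌋₊, Apsi ψ X z n *
      (∑ k ∈ Finset.Ioc K ⌊c₁ * Real.log X⌋₊, TS (Real.log X) s k n (FF k)) ≤
      ε * (X * (Real.log X) ^ (2 * s))

/-- M3: chains of marks of length up to a constant times `log X` (from M1, M2, M4). -/
def claimM3 : Prop := ∀ (s h : ℕ) (θ : ℝ) (ψ : (Fin s → ℝ) → ℝ), 1 ≤ s → h ≠ 0 → 0 < θ →
    θ < 1 / 2 → Wt s θ ψ → ∀ (FF : (k : ℕ) → (Fin k → ℝ) → (Fin (s + 1) → ℝ) → ℝ)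
    (C₀ M₀ I : ℝ), 1 ≤ C₀ → 0 < M₀ → M₀ < 1 →
    (∀ k x v, 0 ≤ FF k x v ∧ FF k x v ≤ C₀ ^ k) →
    (∀ k x v, FF (k + 1) x v ≤ C₀ ^ (k + 1) * FL k M₀ x v) →
    (∀ k, ∀ᵐ y ∂(volume.restrict (Sim k s)), ContinuousAt (ext (FF k)) (y, 1 - ∑ i, y i)) →
    (∀ K, ∑ k ∈ Finset.range (K + 1), ∫ y in Sim k s, ext (FF k) (y, 1 - ∑ i, y i) * den y ≤ I) →
    ∃ c₀ : ℝ, 0 < c₀ ∧ ∀ c₁ : ℝ, 0 < c₁ → c₁ ≤ c₀ →
      Mean s h ψ (fun X n => ∑ k ∈ Finset.range (⌊c₁ * Real.log X⌋₊ + 1),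
        TS (Real.log X) s k n (FF k)) I

/-! ## B: the simplest scheme -/

/-- B0: placements, one more mark. -/
def claimB0 : Prop := ∀ (s k : ℕ) (g : (Fin (s + 1) → ℝ) → ℝ) (x : Fin (k + 1) → ℝ)
    (v : Fin (s + 1) → ℝ),
    Pl g x v = ∑ i, Pl g (Fin.init x) (ad v i (x (Fin.last k)))

/-- B1: the mark step. -/
def claimB1 : Prop := ∀ (L : ℝ) (s k n : ℕ) (F : (Fin k → ℝ) → (Fin (s + 1) → ℝ) → ℝ),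
    0 < L → n ≠ 0 →
    (∀ x v, (∀ m, 0 ≤ x m) → (∀ i, 0 ≤ v i) → ∑ m, x m + ∑ i, v i = Real.log n / L →
      ∑ i, v i = 0 → F x v = 0) →
    TS L s k n F = TS L s (k + 1) n
      (fun x v => ∑ i, F (Fin.init x) (ad v i (x (Fin.last k))))

/-- B2: the chain identity. -/
def claimB2 : Prop := ∀ (L : ℝ) (s n K : ℕ) (c : ℝ) (g : (Fin (s + 1) → ℝ) → ℝ), 0 < L →
    n ≠ 0 → 0 < c → c < Real.log n / L →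
    TS L s 0 n (fun _ v => g v) =
      ∑ k ∈ Finset.range K, TS L s (k + 1) n (fun x v => by
        classical exact if stp c x then Pl g x v else 0) +
      TS L s K n (fun x v => if ∑ j, x j < c then Pl g x v else 0)

/-- B3: monotonicity of `TS` (compare `Hyb.claimP0`), and the number of factorisations. -/
def claimB3 : Prop := (∀ (L : ℝ) (s k n : ℕ) (F G : (Fin k → ℝ) → (Fin (s + 1) → ℝ) → ℝ),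
    0 < L → n ≠ 0 →
    (∀ x v, (∀ m, 0 < x m) → (∀ i, 0 ≤ v i) → ∑ m, x m + ∑ i, v i = Real.log n / L →
      F x v ≤ G x v) →
    TS L s k n F ≤ TS L s k n G) ∧
    ∀ (L : ℝ) (s n : ℕ), n ≠ 0 →
      TS L s 0 n (fun _ _ => 1) = (((ζ : ArithmeticFunction ℕ) ^ (s + 1)) n : ℝ)

/-- B4: there is a good placement as soon as the total of the marks is
`(s - 1) / (2 s) + 2 θ`. -/
def claimB4 : Prop := ∀ (s k : ℕ) (θ : ℝ), 1 ≤ s → 0 < θ → θ ≤ 1 / 10 →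
    ∀ (x : Fin k → ℝ) (v : Fin (s + 1) → ℝ), (∀ m, 0 ≤ x m) → (∀ i, 0 ≤ v i) →
    ∑ m, x m + ∑ i, v i ≤ 1 → ((s : ℝ) - 1) / (2 * s) + 2 * θ ≤ ∑ m, x m →
    1 ≤ Pl (gs (ps s θ)) x v

/-- B5: Cauchy-Schwarz for structure sums (compare `Hyb.claimP5`). -/
def claimB5 : Prop := ∀ (L : ℝ) (s n K : ℕ) (F G N : (k : ℕ) → (Fin (k + 1) → ℝ) →
      (Fin (s + 1) → ℝ) → ℝ), 0 < L → n ≠ 0 →
    (∀ k x v, (∀ m, 0 < x m) → (∀ i, 0 ≤ v i) → ∑ m, x m + ∑ i, v i = Real.log n / L →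
      0 ≤ N k x v ∧ 0 ≤ F k x v ∧ 0 ≤ G k x v ∧ N k x v ^ 2 ≤ F k x v * G k x v) →
    (∑ k ∈ Finset.range K, TS L s (k + 1) n (N k)) ^ 2 ≤
      (∑ k ∈ Finset.range K, TS L s (k + 1) n (F k)) *
      (∑ k ∈ Finset.range K, TS L s (k + 1) n (G k))

/-- B6: the simplest scheme dominates. -/
def claimB6 : Prop := ∀ (s : ℕ) (θ c : ℝ), 1 ≤ s → 0 < θ → θ ≤ 1 / 10 →
    c = ((s : ℝ) - 1) / (2 * s) + 2 * θ → ∀ c₁ : ℝ, 0 < c₁ →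
    Dom s (ps s θ) (fun X n => ∑ k ∈ Finset.range (⌊c₁ * Real.log X⌋₊ + 1),
      TS (Real.log X) s k n (FB s c k))

/-- B7: bounds and continuity of the structure function. -/
def claimB7 : Prop := ∀ (s : ℕ) (c : ℝ),
    (∀ k x v, 0 ≤ FB s c k x v ∧ FB s c k x v ≤ (((s : ℝ) + 1) ^ 2) ^ k) ∧
    (∀ k x v, FB s c (k + 1) x v ≤ (((s : ℝ) + 1) ^ 2) ^ (k + 1) * FL k c x v) ∧
    ∀ k, ∀ᵐ y ∂(volume.restrict (Sim k s)), ContinuousAt (ext (FB s c k)) (y, 1 - ∑ i, y i)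

/-- B8: the integral over the variables which are not marks. -/
def claimB8 : Prop := ∀ (s k : ℕ) (f : (Fin k → ℝ) → ℝ) (B : ℝ), Measurable f →
    (∀ x, 0 ≤ f x ∧ f x ≤ B) →
    ∫ y in Sim k s, f (fun i => y (Sum.inl i)) * den y =
      ∫ x in {x : Fin k → ℝ | (∀ i, 0 < x i) ∧ ∑ i, x i < 1},
        f x * (∏ j : Fin k, (1 - ∑ i ∈ Finset.univ.filter (fun i : Fin k => i < j), x i)⁻¹) *
          ((1 - ∑ i, x i) ^ s / (s.factorial : ℝ))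

/-- B9: the sum over the lengths of the chain. -/
def claimB9 : Prop := ∀ (s : ℕ) (c : ℝ), 1 ≤ s → 0 < c → c < 1 → ∀ K : ℕ,
    ∑ k ∈ Finset.range (K + 1), ∫ y in Sim k s, ext (FB s c k) (y, 1 - ∑ i, y i) * den y ≤
      ((s : ℝ) + 1) ^ 2 * (1 - c) ^ (s + 1) /
        (((s + 1).factorial : ℝ) * (1 - c) ^ ((s + 1) ^ 2))

/-- B10: the weight. -/
def claimB10 : Prop := ∀ (s : ℕ) (θ : ℝ), 1 ≤ s → 0 < θ → θ < 1 / 2 →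
    Wt s θ (ps s θ) ∧ ∫ y in O1 s, ps s θ y = (1 / 2 - θ) ^ s / (s.factorial : ℝ)

/-- The final statement for all `r = s + 1`. -/
def claimFinal : Prop := ∀ (s h : ℕ), 1 ≤ s → h ≠ 0 → ∀ C : ℝ,
    Csing s h / (s.factorial : ℝ) ^ 2 * (((s : ℝ) + 1) ^ 2 / 2 ^ s *
      (2 * s / ((s : ℝ) + 1)) ^ (s * (s + 1))) < C →
    ∀ᶠ X : ℝ in atTop, DS s h 0 ⌊X⌋₊ ≤ C * (X * (Real.log X) ^ (2 * s))

end Pool.Agent.Work.MP_122e00_nt.Gen
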