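import Pool.Agent.Work.MP_122e00_nt.Gen.Stmts

set_option autoImplicit false

/-!
# Two-sided bounds for shifted divisor sums, all `r = s + 1`: statements

N, AT2: from `Dom2` and `Mean` to the two-sided bound; `W n = TS_0 (gs ψ)`, `U = d - W`.
E: the exceptional integers, for which `d n > R * W n`.
-/

namespace Pool.Agent.Work.MP_122e00_nt.Gen

open Finset Filter Topology MeasureTheory

open scoped ArithmeticFunction.vonMangoldt ArithmeticFunction.zeta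

open Two

/-! ## Definitions -/

/-- The divisor function. -/
noncomputable def dv (s n : ℕ) : ℝ := (((ζ : ArithmeticFunction ℕ) ^ (s + 1)) n : ℝ)

/-- The divisor sum of level `1 / 2 - θ`, scale `L = log X`. -/
noncomputable def Wn (s : ℕ) (ψ : (Fin s → ℝ) → ℝ) (L : ℝ) (n : ℕ) : ℝ :=
  TS L s 0 n (fun _ v => gs ψ v)

/-- `(d - W) ^ 2 ≤ H * W`, up to a negligible quantity. -/
def Dom2 (s : ℕ) (ψ : (Fin s → ℝ) → ℝ) (H : ℝ → ℕ → ℝ) : Prop :=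
  ∀ᶠ X : ℝ in atTop, ∀ n : ℕ, X / Real.log X ≤ (n : ℝ) → (n : ℝ) ≤ X →
    0 ≤ H X n ∧ ∃ l : ℝ, |l| ≤ X⁻¹ ∧
      (dv s n - Wn s ψ (Real.log X) n - l) ^ 2 ≤ H X n * Wn s ψ (Real.log X) n

/-- The chain scheme. -/
noncomputable def HB (s : ℕ) (c c₁ : ℝ) (X : ℝ) (n : ℕ) : ℝ :=
  ∑ k ∈ Finset.range (⌊c₁ * Real.log X⌋₊ + 1), TS (Real.log X) s k n (FB s c k)

/-- The prime factors of size more than `η`, in the logarithmic scale `L`. -/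
noncomputable def LP (η L : ℝ) (n : ℕ) : Finset ℕ :=
  n.primeFactors.filter fun p => η < Real.log p / L

/-- There is a large prime power which is not a prime. -/
def Bad (η L : ℝ) (n : ℕ) : Prop :=
  ∃ p a : ℕ, p.Prime ∧ 2 ≤ a ∧ p ^ a ∣ n ∧ η < Real.log ((p ^ a : ℕ) : ℝ) / L

/-- Any `j` large primes of `n` have total size less than `c`. -/
def Sm (η L c : ℝ) (j n : ℕ) : Prop :=
  ∀ P ⊆ LP η L n, P.card = j → ∑ p ∈ P, Real.log p / L < c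

/-- Any `j` marks have total size less than `c`. -/
def Tj {k : ℕ} (j : ℕ) (c : ℝ) (x : Fin k → ℝ) : Prop :=
  ∀ S : Finset (Fin k), S.card = j → ∑ i ∈ S, x i < c

open Classical in
/-- The limit of the mean of `d n` over the integers with small large primes. -/
noncomputable def Vf (s j k : ℕ) (c : ℝ) : ℝ :=
  ((s : ℝ) + 1) ^ k * ∫ y in Sim k s, (if Tj j c (fun i => y (Sum.inl i)) then 1 else 0) * den y

/-- The large primes are all together small, or `J` of them always are. -/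
def Cinf (η L c : ℝ) (J n : ℕ) : Prop :=
  (∑ p ∈ LP η L n, Real.log p / L < c) ∨ (J ≤ (LP η L n).card ∧ Sm η L c J n)

/-! ## N: the two-sided theorem -/

/-- N0: the integral and the continuity of `gs ψ`. -/
def claimN0 : Prop := ∀ (s : ℕ) (θ : ℝ) (ψ : (Fin s → ℝ) → ℝ), 1 ≤ s → 0 < θ → θ < 1 / 2 →
    Wt s θ ψ →
    (∀ᵐ y ∂(volume.restrict (Sim 0 s)),
      ContinuousAt (ext (k := 0) (s := s) (fun _ v => gs ψ v)) (y, 1 - ∑ i, y i)) ∧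
    ∫ y in Sim 0 s, ext (k := 0) (s := s) (fun _ v => gs ψ v) (y, 1 - ∑ i, y i) * den y =
      (s + 1) * ∫ y in O1 s, ψ y

/-- N1: the mean value of `d`, both directions. -/
def claimN1 : Prop := ∀ (s h : ℕ) (θ : ℝ) (ψ : (Fin s → ℝ) → ℝ), 1 ≤ s → h ≠ 0 → 0 < θ →
    θ < 1 / 2 → Wt s θ ψ →
    Mean s h ψ (fun _ n => dv s n) (1 / (s.factorial : ℝ)) ∧
    Mean s h ψ (fun _ n => - dv s n) (- (1 / (s.factorial : ℝ)))

/-- N2: the mean value of `W`, both directions. -/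
def claimN2 : Prop := ∀ (s h : ℕ) (θ : ℝ) (ψ : (Fin s → ℝ) → ℝ), 1 ≤ s → h ≠ 0 → 0 < θ →
    θ < 1 / 2 → Wt s θ ψ →
    Mean s h ψ (fun X n => Wn s ψ (Real.log X) n) ((s + 1) * ∫ y in O1 s, ψ y) ∧
    Mean s h ψ (fun X n => - Wn s ψ (Real.log X) n) (- ((s + 1) * ∫ y in O1 s, ψ y))

/-- N3: the product at `n` and `n + h`, summed (compare G3). -/
def claimN3 : Prop := ∀ (s h : ℕ) (θ : ℝ) (ψ : (Fin s → ℝ) → ℝ), 1 ≤ s → h ≠ 0 → 0 < θ →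
    θ < 1 / 2 → Wt s θ ψ → ∀ H : ℝ → ℕ → ℝ, Dom2 s ψ H →
    ∀ᶠ X : ℝ in atTop,
    |DS s h ⌊X / Real.log X⌋₊ ⌊X⌋₊ -
      (s + 1) * (∑ n ∈ Finset.Ioc ⌊X / Real.log X⌋₊ ⌊X⌋₊, Apsi ψ X (-h) n * dv s n +
        ∑ n ∈ Finset.Ioc ⌊X / Real.log X⌋₊ ⌊X⌋₊, Apsi ψ X h n * dv s n -
        ∑ n ∈ Finset.Ioc ⌊X / Real.log X⌋₊ ⌊X⌋₊, Apsi ψ X (-h) n *
          Wn s ψ (Real.log X) n)| ≤
      (s + 1) / 2 * (∑ n ∈ Finset.Ioc ⌊X / Real.log X⌋₊ ⌊X⌋₊, Apsi ψ X (-h) n * H X n +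
        ∑ n ∈ Finset.Ioc ⌊X / Real.log X⌋₊ ⌊X⌋₊, Apsi ψ X h n * H X n) + X ^ (1 / 2 : ℝ)

/-- The two-sided theorem. -/
def claimAT2 : Prop := ∀ (s h : ℕ) (θ : ℝ) (ψ : (Fin s → ℝ) → ℝ), 1 ≤ s → h ≠ 0 → 0 < θ →
    θ < 1 / 2 → Wt s θ ψ → ∀ (H : ℝ → ℕ → ℝ) (I b : ℝ), 0 ≤ I → Dom2 s ψ H → Mean s h ψ H I →
    b = (s + 1) * ∫ y in O1 s, ψ y →
    ∀ δ : ℝ, 0 < δ → ∀ᶠ X : ℝ in atTop,
      |DS s h 0 ⌊X⌋₊ - Csing s h * (2 * b / (s.factorial : ℝ) - b ^ 2) *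
        (X * (Real.log X) ^ (2 * s))| ≤ (Csing s h * b * I + δ) * (X * (Real.log X) ^ (2 * s))

/-! ## X: calculus of means and structure sums -/

/-- X0: monotonicity and scaling of means. -/
def claimX0 : Prop := ∀ (s h : ℕ) (θ : ℝ) (ψ : (Fin s → ℝ) → ℝ), Wt s θ ψ →
    (∀ (H₁ H₂ : ℝ → ℕ → ℝ) (I : ℝ), Mean s h ψ H₂ I →
      (∀ᶠ X : ℝ in atTop, ∀ n : ℕ, X / Real.log X ≤ (n : ℝ) → (n : ℝ) ≤ X → H₁ X n ≤ H₂ X n) →
      Mean s h ψ H₁ I) ∧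
    (∀ (a : ℝ) (H : ℝ → ℕ → ℝ) (I : ℝ), 0 ≤ a → Mean s h ψ H I →
      Mean s h ψ (fun X n => a * H X n) (a * I))

/-- X1: monotonicity of `TS` on the actual marks. -/
def claimX1 : Prop := ∀ (L : ℝ) (s k n : ℕ) (F G : (Fin k → ℝ) → (Fin (s + 1) → ℝ) → ℝ), 0 < L →
    n ≠ 0 → (∀ d : Fin k → ℕ, (∀ i, IsPrimePow (d i)) → (∏ i, d i) ∣ n → ∀ v : Fin (s + 1) → ℝ,
      (∀ i, 0 ≤ v i) → ∑ i, Real.log (d i) / L + ∑ i, v i = Real.log n / L →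
      F (fun i => Real.log (d i) / L) v ≤ G (fun i => Real.log (d i) / L) v) →
    TS L s k n F ≤ TS L s k n G

open Classical in
/-- X2: one more mark, for functions of the marks. -/
def claimX2 : Prop := ∀ (L : ℝ) (s k n : ℕ) (F : (Fin k → ℝ) → ℝ), 0 < L → n ≠ 0 →
    TS L s k n (fun x _ => F x) = (s + 1) * TS L s (k + 1) n (fun x _ => F (Fin.init x)) +
      TS L s k n (fun x v => if ∑ i, v i = 0 then F x else 0)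

open Classical in
/-- X3: `d n` with `k` marks. -/
def claimX3 : Prop := ∀ (L : ℝ) (s k n : ℕ), 0 < L → n ≠ 0 →
    dv s n = (s + 1) ^ k * TS L s k n (fun _ _ => 1) +
      ∑ i ∈ Finset.range k, (s + 1) ^ i *
        TS L s i n (fun _ v => if ∑ i, v i = 0 then 1 else 0)

open Classical in
/-- X4: the mean value of the structure sums of complete factorisations is `0`. -/
def claimX4 : Prop := ∀ (s k h : ℕ) (θ : ℝ) (ψ : (Fin s → ℝ) → ℝ), 1 ≤ s → h ≠ 0 → 0 < θ →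
    θ < 1 / 2 → Wt s θ ψ →
    Mean s h ψ (fun X n => TS (Real.log X) s k n
      (fun _ v => if ∑ i, v i = 0 then 1 else 0)) 0

/-! ## E: the exceptional integers -/

/-- E0: factorisations of `p₁ ⋯ p_j m`. -/
def claimE0 : Prop := ∀ (L : ℝ) (s j m : ℕ) (p : Fin j → ℕ) (g : (Fin (s + 1) → ℝ) → ℝ), 0 < L →
    m ≠ 0 → (∀ i, (p i).Prime) → Function.Injective p → (∀ i, ¬ p i ∣ m) →
    TS L s 0 ((∏ i, p i) * m) (fun _ v => g v) =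
      TS L s 0 m (fun _ v => Pl g (fun i => Real.log (p i) / L) v)

/-- E1: if `j` primes of `n` have total size at least `c`, then `d n ≤ (r ^ j / w₀) W n`. -/
def claimE1 : Prop := ∀ (s : ℕ) (θ c w₀ : ℝ) (ψ : (Fin s → ℝ) → ℝ), 1 ≤ s → 0 < θ →
    θ ≤ 1 / 10 → c = ((s : ℝ) - 1) / (2 * s) + 2 * θ → Wt s θ ψ → 0 < w₀ →
    (∀ y, (∀ i, 0 ≤ y i) → ∑ i, y i ≤ 1 / 2 - θ → w₀ ≤ ψ y) →
    ∀ (L η : ℝ) (n j : ℕ), 0 < L → n ≠ 0 → Real.log n / L ≤ 1 → ¬ Bad η L n → 0 < η →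
    ∀ P ⊆ LP η L n, P.card = j → c ≤ ∑ p ∈ P, Real.log p / L →
    dv s n * w₀ ≤ (s + 1) ^ j * Wn s ψ L n

/-- E2: the chain scheme for a weight which is bounded below. -/
def claimE2 : Prop := ∀ (s : ℕ) (θ c w₀ : ℝ) (ψ : (Fin s → ℝ) → ℝ), 1 ≤ s → 0 < θ →
    θ ≤ 1 / 10 → c = ((s : ℝ) - 1) / (2 * s) + 2 * θ → Wt s θ ψ → 0 < w₀ →
    (∀ y, (∀ i, 0 ≤ y i) → ∑ i, y i ≤ 1 / 2 - θ → w₀ ≤ ψ y) → ∀ c₁ : ℝ, 0 < c₁ →
    Dom s ψ (fun X n => w₀⁻¹ * HB s c c₁ X n)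

/-- E3: the marks of an integer without large prime powers. -/
def claimE3 : Prop := ∀ (L η c : ℝ) (n k : ℕ) (d : Fin k → ℕ), 0 < L → 0 < η → n ≠ 0 →
    ¬ Bad η L n → (∀ i, IsPrimePow (d i)) → (∏ i, d i) ∣ n →
    (∀ j, j ≤ (LP η L n).card → Sm η L c j n → Tj j c (fun i => Real.log (d i) / L)) ∧
    (∀ J, J ≤ (LP η L n).card → Sm η L c J n → k ≤ J →
      ∑ i, Real.log (d i) / L < c) ∧
    (∑ p ∈ LP η L n, Real.log p / L < c → c ≤ ∑ i, Real.log (d i) / L →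
      ∃ i, Real.log (d i) / L ≤ η)

open Classical in
/-- E4: the mean value of `d` over the integers without large prime powers for which any `j` large
primes have total size less than `c`. -/
def claimE4 : Prop := ∀ (s h j k : ℕ) (θ η c : ℝ) (ψ : (Fin s → ℝ) → ℝ), 1 ≤ s → h ≠ 0 →
    0 < θ → θ < 1 / 2 → Wt s θ ψ → 0 < η → 0 < c → 1 ≤ j →
    Mean s h ψ (fun X n =>
      if ¬ Bad η (Real.log X) n ∧ j ≤ (LP η (Real.log X) n).card ∧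
        Sm η (Real.log X) c j n then dv s n else 0) (Vf s j k c)

open Classical in
/-- E5: the chain with a small mark. -/
def claimE5 : Prop := ∀ (s K : ℕ) (c ε : ℝ), 1 ≤ s → 0 < c → c < 1 → 0 < ε →
    ∃ η₀ : ℝ, 0 < η₀ ∧ ∀ η : ℝ, 0 < η → η ≤ η₀ → ∑ k ∈ Finset.range (K + 1),
      ∫ y in Sim k s, ext (s := s) (fun x v =>
        if ∃ i, x i ≤ η then FB s c k x v else 0) (y, 1 - ∑ i, y i) * den y ≤ ε

open Classical in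
/-- E6: the chain scheme on the integers with small large primes. -/
def claimE6 : Prop := ∀ (s h : ℕ) (θ c : ℝ) (ψ : (Fin s → ℝ) → ℝ), 1 ≤ s → h ≠ 0 →
    0 < θ → θ < 1 / 2 → Wt s θ ψ → 0 < c → c < 1 → ∃ c₀ : ℝ, 0 < c₀ ∧ ∀ ε : ℝ, 0 < ε →
    ∃ J₁ : ℕ, ∀ J : ℕ, J₁ ≤ J → ∃ η₀ : ℝ, 0 < η₀ ∧ ∀ η : ℝ, 0 < η → η ≤ η₀ →
    ∀ c₁ : ℝ, 0 < c₁ → c₁ ≤ c₀ →
    Mean s h ψ (fun X n =>
      if ¬ Bad η (Real.log X) n ∧ Cinf η (Real.log X) c J n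
        then HB s c c₁ X n else 0) ε

open Classical in
/-- E7: the chain scheme on the integers with large prime powers. -/
def claimE7 : Prop := ∀ (s h : ℕ) (θ c η : ℝ) (ψ : (Fin s → ℝ) → ℝ), 1 ≤ s → h ≠ 0 →
    0 < θ → θ < 1 / 2 → Wt s θ ψ → 0 < c → c < 1 → 0 < η → ∃ c₀ : ℝ, 0 < c₀ ∧
    ∀ c₁ : ℝ, 0 < c₁ → c₁ ≤ c₀ →
    Mean s h ψ (fun X n =>
      if Bad η (Real.log X) n then HB s c c₁ X n else 0) 0

/-- E8: the exceptional integers. -/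
def claimE8 : Prop := ∀ (s h : ℕ) (θ c w₀ : ℝ) (ψ : (Fin s → ℝ) → ℝ), 1 ≤ s → h ≠ 0 →
    0 < θ → θ ≤ 1 / 10 → c = ((s : ℝ) - 1) / (2 * s) + 2 * θ → Wt s θ ψ → 0 < w₀ →
    (∀ y, (∀ i, 0 ≤ y i) → ∑ i, y i ≤ 1 / 2 - θ → w₀ ≤ ψ y) →
    ∀ (j₀ m : ℕ) (R E₀ : ℝ), 1 ≤ j₀ → 2 ≤ R → (s + 1) ^ j₀ ≤ R * w₀ →
    (∀ J : ℕ, ∑ j ∈ Finset.Ico j₀ J, ((s : ℝ) + 1) ^ (j + 1) * Vf s j (j + m) c ≤ w₀ * E₀) →
    ∀ ε : ℝ, 0 < ε → ∃ HE : ℝ → ℕ → ℝ, Mean s h ψ HE (E₀ + ε) ∧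
      ∀ᶠ X : ℝ in atTop, ∀ n : ℕ, X / Real.log X ≤ (n : ℝ) → (n : ℝ) ≤ X →
        0 ≤ HE X n ∧ (R * Wn s ψ (Real.log X) n < dv s n → ∃ l : ℝ, |l| ≤ X⁻¹ ∧
          (dv s n - Wn s ψ (Real.log X) n - l) ^ 2 ≤ HE X n * Wn s ψ (Real.log X) n)

/-- E9: the volume of the marks for which any `j` have total size less than `c`. -/
def claimE9 : Prop := ∀ (j k : ℕ) (c : ℝ), 1 ≤ j → j ≤ k → 0 < c →
    volume {x : Fin k → ℝ | (∀ i, 0 < x i) ∧ Tj j c x} ≤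
      ENNReal.ofReal (c ^ k / ((j.factorial : ℝ) * (j : ℝ) ^ (k - j)))

/-- E10: a bound for `Vf` (`r = 3`). -/
def claimE10 : Prop := ∀ (j : ℕ) (c : ℝ), 5 ≤ j → 0 < c → c ≤ 63 / 250 →
    Vf 2 j (j + 8) c ≤ 3 ^ (j + 8) * (1 - c)⁻¹ ^ j * 7 *
      (c ^ (j + 8) / ((j.factorial : ℝ) * (j : ℝ) ^ 8))

/-- E11: the sum over `j` (`r = 3`). -/
def claimE11 : Prop := ∀ (c : ℝ), 0 < c → c ≤ 63 / 250 → ∀ J : ℕ,
    ∑ j ∈ Finset.Ico 5 J, ((2 : ℕ) + 1 : ℝ) ^ (j + 1) * Vf 2 j (j + 8) c ≤ 1 / 20000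

end Pool.Agent.Work.MP_122e00_nt.Gen
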