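import Pool.Agent.Work.MP_122e00_nt.Gen.Stmts2
import Pool.Agent.Work.MP_122e00_nt.Two.ItemT7
import Pool.Agent.Work.MP_122e00_nt.Bd.B40

set_option autoImplicit false

/-!
# E9: the volume of the marks for which any `j` have total size less than `c`
-/

namespace Pool.Agent.Work.MP_122e00_nt.Gen

open Finset Filter Topology MeasureTheory

open Two

namespace IE9

/-- the weights -/
noncomputable def w (j m : ℕ) : ℝ := ((min (m + 1) j : ℕ) : ℝ)

lemma w_pos {j : ℕ} (hj : 1 ≤ j) (m : ℕ) : 0 < w j m := by
  unfold w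
  exact_mod_cast (show 0 < min (m + 1) j by omega)

lemma w_eq (j m : ℕ) : w j m = ∑ i ∈ Finset.range j, if i ≤ m then (1 : ℝ) else 0 := by
  rw [Finset.sum_boole]
  unfold w
  congr 1
  have : (Finset.range j).filter (fun i => i ≤ m) = Finset.range (min (m + 1) j) := by
    ext i
    simp only [Finset.mem_filter, Finset.mem_range]
    omega
  rw [this, Finset.card_range]

lemma prod_w (j k : ℕ) (hjk : j ≤ k) :
    ∏ m ∈ Finset.range k, w j m = (j.factorial : ℝ) * (j : ℝ) ^ (k - j) := by
  obtain ⟨t, rfl⟩ := Nat.exists_eq_add_of_le hjk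
  rw [Finset.prod_range_add, Nat.add_sub_cancel_left]
  congr 1
  · rw [← Finset.prod_range_add_one_eq_factorial]
    push_cast
    apply Finset.prod_congr rfl
    intro m hm
    rw [Finset.mem_range] at hm
    unfold w
    rw [show min (m + 1) j = m + 1 by omega]
    push_cast; ring
  · rw [Finset.prod_congr rfl (g := fun _ => (j : ℝ)), Finset.prod_const, Finset.card_range]
    intro m _
    unfold w
    rw [show min (j + m + 1) j = j by omega]

lemma tel (X : ℕ → ℝ) (i : ℕ) : ∀ k, i ≤ k →
    ∑ m ∈ Finset.range k, (if i ≤ m then X m - X (m + 1) else 0) = X i - X k := by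
  intro k hk
  induction k, hk using Nat.le_induction with
  | base =>
    rw [sub_self]
    apply Finset.sum_eq_zero
    intro m hm
    rw [Finset.mem_range] at hm
    rw [if_neg (by omega)]
  | succ k hk ih =>
    rw [Finset.sum_range_succ, ih, if_pos hk]
    ring

lemma abel (X : ℕ → ℝ) (j k : ℕ) (hjk : j ≤ k) :
    ∑ m ∈ Finset.range k, w j m * (X m - X (m + 1)) = ∑ i ∈ Finset.range j, (X i - X k) := by
  calc ∑ m ∈ Finset.range k, w j m * (X m - X (m + 1))
      = ∑ m ∈ Finset.range k, ∑ i ∈ Finset.range j, (if i ≤ m then X m - X (m + 1) else 0) := by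
        apply Finset.sum_congr rfl
        intro m _
        rw [w_eq, Finset.sum_mul]
        apply Finset.sum_congr rfl
        intro i _
        split_ifs <;> simp
    _ = ∑ i ∈ Finset.range j, ∑ m ∈ Finset.range k, (if i ≤ m then X m - X (m + 1) else 0) :=
        Finset.sum_comm
    _ = ∑ i ∈ Finset.range j, (X i - X k) := by
        apply Finset.sum_congr rfl
        intro i hi
        rw [Finset.mem_range] at hi
        exact tel X i k (by omega)

/-- the matrix -/
noncomputable def Mx (j k : ℕ) (c : ℝ) : Matrix (Fin k) (Fin k) ℝ :=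
  fun i m => if i ≤ m then c / w j m else 0

lemma det_Mx (j k : ℕ) (c : ℝ) (hjk : j ≤ k) :
    (Mx j k c).det = c ^ k / ((j.factorial : ℝ) * (j : ℝ) ^ (k - j)) := by
  rw [Matrix.det_of_isUpperTriangular]
  · simp only [Mx, le_refl, if_true]
    rw [Finset.prod_div_distrib, Finset.prod_const, Finset.card_univ, Fintype.card_fin,
      Fin.prod_univ_eq_prod_range (fun m => w j m) k, prod_w j k hjk]
  · intro i m him
    simp only [id] at him
    unfold Mx
    rw [if_neg (not_le.2 him)]

/-- sorted marks -/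
def S0 (j k : ℕ) (c : ℝ) : Set (Fin k → ℝ) :=
  {x | (∀ i, 0 < x i) ∧ (∀ i i', i < i' → x i' < x i) ∧
    ∑ i ∈ Finset.univ.filter (fun i : Fin k => (i : ℕ) < j), x i < c}

lemma S0_sub (j k : ℕ) (c : ℝ) (hj : 1 ≤ j) (hjk : j ≤ k) (hc : 0 < c) :
    S0 j k c ⊆ (Matrix.toLin' (Mx j k c)) '' (IT7.Dl k 1) := by
  rintro x ⟨hx0, hxs, hxc⟩
  set X : ℕ → ℝ := fun m => if h : m < k then x ⟨m, h⟩ else 0 with hX
  have hXx : ∀ i : Fin k, X i = x i := by
    intro i
    simp only [hX]
    rw [dif_pos i.2]
  have hXk : X k = 0 := by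
    simp only [hX]
    rw [dif_neg (lt_irrefl k)]
  have hXd : ∀ m, m < k → 0 < X m - X (m + 1) := by
    intro m hm
    simp only [hX]
    rw [dif_pos hm]
    by_cases h : m + 1 < k
    · rw [dif_pos h]
      have := hxs ⟨m, hm⟩ ⟨m + 1, h⟩ (by rw [Fin.lt_def]; exact Nat.lt_succ_self m)
      linarith
    · rw [dif_neg h]
      linarith [hx0 ⟨m, hm⟩]
  refine ⟨fun m => w j m * (X m - X (m + 1)) / c, ⟨fun m => ?_, ?_⟩, ?_⟩
  · exact div_pos (mul_pos (w_pos hj _) (hXd m m.2)) hc
  · rw [← Finset.sum_div, div_lt_one hc,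
      Fin.sum_univ_eq_sum_range (fun m => w j m * (X m - X (m + 1))) k, abel X j k hjk, hXk]
    simp only [sub_zero]
    refine lt_of_eq_of_lt ?_ hxc
    rw [Finset.sum_filter]
    have e1 : ∀ i : Fin k, (if (i : ℕ) < j then x i else 0) =
        (fun m : ℕ => if m < j then X m else 0) i := by
      intro i
      simp only
      rw [hXx]
    rw [Finset.sum_congr rfl (fun i _ => e1 i),
      Fin.sum_univ_eq_sum_range (fun m => if m < j then X m else 0) k]
    obtain ⟨t, rfl⟩ := Nat.exists_eq_add_of_le hjk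
    rw [Finset.sum_range_add]
    rw [Finset.sum_eq_zero (s := Finset.range t)]
    · rw [add_zero]
      apply Finset.sum_congr rfl
      intro m hm
      rw [Finset.mem_range] at hm
      rw [if_pos hm]
    · intro m _
      rw [if_neg (by omega)]
  · ext i
    rw [Matrix.toLin'_apply, Matrix.mulVec, dotProduct]
    have e1 : ∀ m : Fin k, Mx j k c i m * (w j m * (X m - X (m + 1)) / c) =
        (fun m : ℕ => if (i : ℕ) ≤ m then X m - X (m + 1) else 0) m := by
      intro m
      have hw := (w_pos hj (m : ℕ)).ne'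
      simp only [Mx, Fin.le_def]
      split_ifs
      · field_simp
      · rw [zero_mul]
    rw [Finset.sum_congr rfl (fun m _ => e1 m),
      Fin.sum_univ_eq_sum_range (fun m => if (i : ℕ) ≤ m then X m - X (m + 1) else 0) k,
      tel X i k i.2.le, hXk, sub_zero, hXx]

lemma vol_S0 (j k : ℕ) (c : ℝ) (hj : 1 ≤ j) (hjk : j ≤ k) (hc : 0 < c) :
    volume (S0 j k c) ≤ ENNReal.ofReal (c ^ k / ((j.factorial : ℝ) * (j : ℝ) ^ (k - j)) *
      (1 / (k.factorial : ℝ))) := by
  have hj0 : (0 : ℝ) < j := by exact_mod_cast hj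
  refine (measure_mono (S0_sub j k c hj hjk hc)).trans ?_
  rw [Measure.addHaar_image_linearMap, LinearMap.det_toLin', det_Mx j k c hjk,
    abs_of_nonneg (by positivity), ENNReal.ofReal_mul (by positivity)]
  have := IT7.vol_Dl k 1 zero_le_one
  rw [one_pow] at this
  exact mul_le_mul_right this _

/-- two marks are different, almost everywhere -/
lemma null_eq {k : ℕ} (i i' : Fin k) (h : i ≠ i') : volume {x : Fin k → ℝ | x i = x i'} = 0 := by
  have h1 := Two.prfL6 (Fin k) (Pi.single i 1 - Pi.single i' 1) 0 (by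
    intro h0
    have := congrFun h0 i
    simp [Pi.single_apply, h] at this)
  refine measure_mono_null ?_ h1
  intro x hx
  simp only [Set.mem_ofPred_eq] at hx ⊢
  have e : ∀ y, (Pi.single i (1 : ℝ) - Pi.single i' 1 : Fin k → ℝ) y * x y =
      (if y = i then x i else 0) - (if y = i' then x i' else 0) := by
    intro y
    simp only [Pi.sub_apply, Pi.single_apply]
    by_cases h3 : y = i
    · subst h3
      simp [h]
    · by_cases h2 : y = i'
      · subst h2
        rw [if_neg h3, if_pos rfl, if_neg h3, if_pos rfl]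
        ring
      · simp [h3, h2]
  rw [Finset.sum_congr rfl (fun y _ => e y), Finset.sum_sub_distrib, Finset.sum_ite_eq',
    Finset.sum_ite_eq', if_pos (Finset.mem_univ _), if_pos (Finset.mem_univ _), hx, sub_self]

lemma vol_perm {k : ℕ} (σ : Equiv.Perm (Fin k)) (S : Set (Fin k → ℝ)) :
    volume {x : Fin k → ℝ | (fun i => x (σ i)) ∈ S} = volume S := by
  have h := (volume_measurePreserving_piCongrLeft (fun _ : Fin k => ℝ) σ.symm).measure_preimage_equiv
    S
  rw [← h]
  congr 1
  ext x
  simp only [Set.mem_ofPred_eq, Set.mem_preimage]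
  have : (MeasurableEquiv.piCongrLeft (fun _ : Fin k => ℝ) σ.symm) x = fun i => x (σ i) := by
    ext i
    have := Equiv.piCongrLeft_apply_apply (fun _ : Fin k => ℝ) σ.symm x (σ i)
    rw [Equiv.symm_apply_apply] at this
    exact this
  rw [this]

end IE9

open IE9 in
theorem prfE9 : claimE9 := by
  classical
  intro j k c hj hjk hc
  have hj0 : (0 : ℝ) < j := by exact_mod_cast hj
  have hsub : {x : Fin k → ℝ | (∀ i, 0 < x i) ∧ Tj j c x} ⊆
      (⋃ p : {p : Fin k × Fin k // p.1 ≠ p.2}, {x : Fin k → ℝ | x p.1.1 = x p.1.2}) ∪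
        ⋃ σ : Equiv.Perm (Fin k), {x : Fin k → ℝ | (fun i => x (σ i)) ∈ IE9.S0 j k c} := by
    rintro x ⟨hx0, hxT⟩
    by_cases hinj : ∃ i i' : Fin k, i ≠ i' ∧ x i = x i'
    · left
      obtain ⟨i, i', h1, h2⟩ := hinj
      exact Set.mem_iUnion.2 ⟨⟨(i, i'), h1⟩, h2⟩
    · right
      push Not at hinj
      refine Set.mem_iUnion.2 ⟨Tuple.sort (fun i => - x i), fun i => hx0 _, ?_, ?_⟩
      · intro i i' hii
        have hm := Tuple.monotone_sort (fun i => - x i)
        have h1 := hm hii.le
        simp only [Function.comp_apply, neg_le_neg_iff] at h1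
        refine lt_of_le_of_ne h1 (fun e => ?_)
        exact hinj _ _ (fun e' => (ne_of_gt hii) ((Tuple.sort (fun i => - x i)).injective e')) e
      · have h1 := hxT ((Finset.univ.filter (fun i : Fin k => (i : ℕ) < j)).map
          (Tuple.sort (fun i => - x i)).toEmbedding) (by
            rw [Finset.card_map]
            have : (Finset.univ.filter (fun i : Fin k => (i : ℕ) < j)).card =
                (Finset.range j).card := by
              apply Finset.card_bij (fun (i : Fin k) _ => (i : ℕ))
              · intro a ha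
                rw [Finset.mem_filter] at ha
                rw [Finset.mem_range]; exact ha.2
              · intro a _ b _ h
                exact Fin.ext h
              · intro b hb
                rw [Finset.mem_range] at hb
                exact ⟨⟨b, by omega⟩, by rw [Finset.mem_filter]; exact ⟨Finset.mem_univ _, hb⟩, rfl⟩
            rw [this, Finset.card_range])
        rw [Finset.sum_map] at h1
        exact h1
  refine (measure_mono hsub).trans ((measure_union_le _ _).trans ?_)
  have hnull : volume (⋃ p : {p : Fin k × Fin k // p.1 ≠ p.2},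
      {x : Fin k → ℝ | x p.1.1 = x p.1.2}) = 0 :=
    measure_iUnion_null fun p => null_eq _ _ p.2
  rw [hnull, zero_add]
  refine (measure_iUnion_fintype_le _ _).trans ?_
  have h1 : ∀ σ ∈ (Finset.univ : Finset (Equiv.Perm (Fin k))),
      volume {x : Fin k → ℝ | (fun i => x (σ i)) ∈ IE9.S0 j k c} ≤
      ENNReal.ofReal (c ^ k / ((j.factorial : ℝ) * (j : ℝ) ^ (k - j)) *
        (1 / (k.factorial : ℝ))) := by
    intro σ _
    rw [vol_perm]
    exact vol_S0 j k c hj hjk hc
  refine (Finset.sum_le_sum h1).trans ?_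
  rw [Finset.sum_const, Finset.card_univ, Fintype.card_perm, Fintype.card_fin, nsmul_eq_mul,
    ← ENNReal.ofReal_natCast, ← ENNReal.ofReal_mul (by positivity)]
  apply le_of_eq
  congr 1
  have : (k.factorial : ℝ) ≠ 0 := by positivity
  field_simp

end Pool.Agent.Work.MP_122e00_nt.Gen
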