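import Pool.Agent.Work.MP_122e00_nt.Gen.Stmts
import Pool.Agent.Work.MP_122e00_nt.Bd.B40

set_option autoImplicit false

/-!
# Item B6: the simplest scheme dominates
-/

namespace Pool.Agent.Work.MP_122e00_nt.Gen

open Finset Filter Topology MeasureTheory

open scoped ArithmeticFunction.vonMangoldt ArithmeticFunction.zeta

open Two

namespace IB6

theorem TS_zero (L : ℝ) (s k n : ℕ) : TS L s k n (fun _ _ => 0) = 0 := by
  have := (prfT1 L s k n (fun _ _ => 0) (fun _ _ => 0) 0).2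
  simpa using this

theorem TS_nonneg (h3 : claimB3) (L : ℝ) (s k n : ℕ)
    (F : (Fin k → ℝ) → (Fin (s + 1) → ℝ) → ℝ) (hL : 0 < L) (hn : n ≠ 0)
    (h : ∀ x v, (∀ m, 0 < x m) → (∀ i, 0 ≤ v i) → ∑ m, x m + ∑ i, v i = Real.log n / L →
      0 ≤ F x v) : 0 ≤ TS L s k n F := by
  rw [← TS_zero L s k n]
  exact h3.1 L s k n _ _ hL hn h

theorem Pl_one {s k : ℕ} (x : Fin k → ℝ) (v : Fin (s + 1) → ℝ) :
    Pl (fun _ => 1) x v = ((s : ℝ) + 1) ^ k := by
  unfold Pl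
  simp

theorem ps_nonneg (s : ℕ) (θ : ℝ) (y : Fin s → ℝ) : 0 ≤ ps s θ y := by
  unfold ps
  exact Set.indicator_nonneg (fun _ _ => zero_le_one) _

theorem gs_nonneg (s : ℕ) (θ : ℝ) (v : Fin (s + 1) → ℝ) : 0 ≤ gs (ps s θ) v :=
  Finset.sum_nonneg fun _ _ => ps_nonneg s θ _

theorem Pl_nonneg (s k : ℕ) (θ : ℝ) (x : Fin k → ℝ) (v : Fin (s + 1) → ℝ) :
    0 ≤ Pl (gs (ps s θ)) x v :=
  Finset.sum_nonneg fun _ _ => gs_nonneg s θ _

open Classical in
/-- The pieces of the chain identity. -/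
noncomputable def Pc (s : ℕ) (c : ℝ) (g : (Fin (s + 1) → ℝ) → ℝ) (k : ℕ)
    (x : Fin (k + 1) → ℝ) (v : Fin (s + 1) → ℝ) : ℝ :=
  if stp c x then Pl g x v else 0

theorem core (h2 : claimB2) (h3 : claimB3) (h4 : claimB4) (h5 : claimB5)
    (s : ℕ) (θ c : ℝ) (hs : 1 ≤ s) (hθ : 0 < θ) (hθ' : θ ≤ 1 / 10)
    (hc : c = ((s : ℝ) - 1) / (2 * s) + 2 * θ) (hc0 : 0 < c) (L : ℝ) (n K : ℕ) (hL : 0 < L)
    (hn : n ≠ 0) (hlo : c < Real.log n / L) (hhi : Real.log n / L ≤ 1) :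
    0 ≤ (∑ k ∈ Finset.range (K + 1), TS L s k n (FB s c k)) ∧
    0 ≤ ((s : ℝ) + 1) ^ K * TS L s K n (FT K c) ∧
    ((((ζ : ArithmeticFunction ℕ) ^ (s + 1)) n : ℝ) -
        ((s : ℝ) + 1) ^ K * TS L s K n (FT K c)) ^ 2 ≤
      (∑ k ∈ Finset.range (K + 1), TS L s k n (FB s c k)) *
        TS L s 0 n (fun _ v => gs (ps s θ) v) := by
  have e1 : (((ζ : ArithmeticFunction ℕ) ^ (s + 1)) n : ℝ) =
      ∑ k ∈ Finset.range K, TS L s (k + 1) n (Pc s c (fun _ => 1) k) +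
      ((s : ℝ) + 1) ^ K * TS L s K n (FT K c) := by
    rw [← h3.2 L s n hn, h2 L s n K c (fun _ => 1) hL hn hc0 hlo]
    congr 1
    rw [← (prfT1 L s K n (FT K c) (FT K c) (((s : ℝ) + 1) ^ K)).2]
    congr 1
    funext x v
    unfold FT
    rw [Pl_one]
    split_ifs <;> simp
  have e2 : TS L s 0 n (fun _ v => gs (ps s θ) v) =
      ∑ k ∈ Finset.range K, TS L s (k + 1) n (Pc s c (gs (ps s θ)) k) +
      TS L s K n (fun x v => if ∑ j, x j < c then Pl (gs (ps s θ)) x v else 0) :=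
    h2 L s n K c (gs (ps s θ)) hL hn hc0 hlo
  have l2 : 0 ≤ TS L s K n
      (fun x v => if ∑ j, x j < c then Pl (gs (ps s θ)) x v else 0) := by
    refine TS_nonneg h3 L s K n _ hL hn fun x v _ _ _ => ?_
    split_ifs
    · exact Pl_nonneg s K θ x v
    · exact le_refl _
  have l1 : 0 ≤ ((s : ℝ) + 1) ^ K * TS L s K n (FT K c) := by
    refine mul_nonneg (by positivity) (TS_nonneg h3 L s K n _ hL hn fun x v _ _ _ => ?_)
    unfold FT
    split_ifs <;> norm_num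
  have e3 : ∑ k ∈ Finset.range (K + 1), TS L s k n (FB s c k) =
      ∑ k ∈ Finset.range K, TS L s (k + 1) n (FB s c (k + 1)) := by
    rw [Finset.sum_range_succ']
    have : TS L s 0 n (FB s c 0) = 0 := TS_zero L s 0 n
    rw [this, add_zero]
  have key : ∀ (k : ℕ) (x : Fin (k + 1) → ℝ) (v : Fin (s + 1) → ℝ), (∀ m, 0 < x m) →
      (∀ i, 0 ≤ v i) → ∑ m, x m + ∑ i, v i = Real.log n / L →
      0 ≤ Pc s c (fun _ => 1) k x v ∧ 0 ≤ FB s c (k + 1) x v ∧
      0 ≤ Pc s c (gs (ps s θ)) k x v ∧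
      Pc s c (fun _ => 1) k x v ^ 2 ≤ FB s c (k + 1) x v * Pc s c (gs (ps s θ)) k x v := by
    intro k x v hx hv hsum
    unfold Pc
    simp only [FB]
    by_cases hst : stp c x
    · simp only [hst, if_true]
      rw [Pl_one]
      have hP : 1 ≤ Pl (gs (ps s θ)) x v :=
        h4 s (k + 1) θ hs hθ hθ' x v (fun m => (hx m).le) hv (by rw [hsum]; exact hhi)
          (by rw [← hc]; exact hst.1)
      have hp : (0 : ℝ) < ((s : ℝ) + 1) ^ (2 * (k + 1)) := by positivity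
      refine ⟨by positivity, hp.le, by linarith, ?_⟩
      have : (((s : ℝ) + 1) ^ (k + 1)) ^ 2 = ((s : ℝ) + 1) ^ (2 * (k + 1)) := by
        rw [← pow_mul, mul_comm]
      rw [this]
      nlinarith
    · simp [hst]
  have nH : 0 ≤ ∑ k ∈ Finset.range (K + 1), TS L s k n (FB s c k) := by
    rw [e3]
    exact Finset.sum_nonneg fun k _ => TS_nonneg h3 L s (k + 1) n _ hL hn
      fun x v hx hv hsum => (key k x v hx hv hsum).2.1
  have cs := h5 L s n K (fun k => FB s c (k + 1)) (Pc s c (gs (ps s θ)))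
    (Pc s c (fun _ => 1)) hL hn key
  refine ⟨nH, l1, ?_⟩
  have e4 : (((ζ : ArithmeticFunction ℕ) ^ (s + 1)) n : ℝ) -
      ((s : ℝ) + 1) ^ K * TS L s K n (FT K c) =
      ∑ k ∈ Finset.range K, TS L s (k + 1) n (Pc s c (fun _ => 1) k) := by
    rw [e1]
    ring
  rw [e4]
  refine le_trans cs ?_
  rw [← e3]
  refine mul_le_mul_of_nonneg_left ?_ nH
  rw [e2]
  linarith

end IB6

theorem prfB6 (g2 : claimG2) (h2 : claimB2) (h3 : claimB3) (h4 : claimB4) (h5 : claimB5) :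
    claimB6 := by
  intro s θ c hs hθ hθ' hc c₁ hc₁
  have hs0 : (0 : ℝ) < s := by exact_mod_cast hs
  have hs1 : (1 : ℝ) ≤ s := by exact_mod_cast hs
  have hc0 : 0 < c := by
    rw [hc]
    have : 0 ≤ ((s : ℝ) - 1) / (2 * s) := div_nonneg (by linarith) (by linarith)
    linarith
  have hc1 : c < 7 / 10 := by
    rw [hc]
    have : ((s : ℝ) - 1) / (2 * s) < 1 / 2 := by
      rw [div_lt_div_iff₀ (by linarith) (by norm_num)]
      linarith
    linarith
  have ev1 : ∀ᶠ X : ℝ in atTop, ‖Real.log (Real.log X)‖ ≤ 3 / 10 * ‖id (Real.log X)‖ :=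
    Real.tendsto_log_atTop.eventually
      (Real.isLittleO_log_id_atTop.def (by norm_num : (0 : ℝ) < 3 / 10))
  have ev2 := g2 s ((s : ℝ) + 1) c c₁ (by linarith) hc0 (by linarith) hc₁
  unfold Dom
  filter_upwards [ev1, ev2, eventually_gt_atTop (Real.exp 1)] with X h1 hg hX
  intro n hn1 hn2
  have hX0 : (0 : ℝ) < X := lt_trans (Real.exp_pos 1) hX
  have hL1 : 1 < Real.log X := by
    rw [Real.lt_log_iff_exp_lt hX0]
    exact hX
  have hL : 0 < Real.log X := by linarith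
  have hnp : (0 : ℝ) < n := lt_of_lt_of_le (div_pos hX0 hL) hn1
  have hn : n ≠ 0 := by
    intro h
    rw [h] at hnp
    simp at hnp
  have hlog : 7 / 10 * Real.log X ≤ Real.log n := by
    have a1 : Real.log (X / Real.log X) ≤ Real.log n := Real.log_le_log (div_pos hX0 hL) hn1
    rw [Real.log_div hX0.ne' hL.ne'] at a1
    have a2 : Real.log (Real.log X) ≤ 3 / 10 * Real.log X := by
      have := le_trans (le_abs_self _) h1
      simpa [abs_of_pos hL] using this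
    linarith
  have hlo : c < Real.log n / Real.log X := by
    rw [lt_div_iff₀ hL]
    nlinarith
  have hhi : Real.log n / Real.log X ≤ 1 := by
    rw [div_le_one hL]
    exact Real.log_le_log hnp hn2
  obtain ⟨r1, r2, r3⟩ := IB6.core h2 h3 h4 h5 s θ c hs hθ hθ' hc hc0 (Real.log X) n
    ⌊c₁ * Real.log X⌋₊ hL hn hlo hhi
  exact ⟨r1, _, r2, hg n hn1 hn2, r3⟩

end Pool.Agent.Work.MP_122e00_nt.Gen
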