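import Pool.Agent.Work.MP_122e00_nt.Bd.B44
import Pool.Agent.Work.MP_122e00_nt.Bd.B47
import Pool.Agent.Work.MP_122e00_nt.Bd.B45
import Pool.Agent.Work.MP_122e00_nt.Bd.B42
import Pool.Agent.Work.MP_122e00_nt.Gen.ItemB6

set_option autoImplicit false

/-!
# Upper bounds for shifted divisor sums, all `r = s + 1`: assembly
-/

namespace Pool.Agent.Work.MP_122e00_nt.Gen

theorem mG3 : claimG3 := prfG3 prfG1

/-- The abstract theorem. -/
theorem mAT : claimAT := prfAT mG3 prfG4

theorem mM3 : claimM3 := prfM3 prfM1 prfM4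

theorem mB2 : claimB2 := prfB2 prfB0 prfB1

theorem mB5 : claimB5 := prfB5 prfB3

theorem mB6 : claimB6 := prfB6 prfG2 mB2 prfB3 prfB4 mB5

theorem mB9 : claimB9 := prfB9 prfB8

theorem mFinal : claimFinal := prfFinal mAT mM3 mB6 prfB7 mB9 prfB10

end Pool.Agent.Work.MP_122e00_nt.Gen
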