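import Pool.Agent.Work.MP_122e00_nt.Gen.Stmts2
import Pool.Agent.Work.MP_122e00_nt.Two.ItemT7

set_option autoImplicit false

/-!
# Item N0: the integral and the continuity of `gs ψ`
-/

namespace Pool.Agent.Work.MP_122e00_nt.Gen

open Finset Filter Topology MeasureTheory

open Two

namespace IN0

variable {s : ℕ}

/-- Complete `u` by a last coordinate so that the sum is `0`. -/
noncomputable def sn0 (s : ℕ) : (Fin s → ℝ) →ₗ[ℝ] (Fin (s + 1) → ℝ) where
  toFun u := Fin.snoc u (- ∑ i, u i)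
  map_add' u v := by
    ext q
    refine Fin.lastCases ?_ (fun q => ?_) q
    · simp [Finset.sum_add_distrib]
      ring
    · simp
  map_smul' c u := by
    ext q
    refine Fin.lastCases ?_ (fun q => ?_) q
    · simp [Finset.mul_sum]
    · simp

theorem sn0_castSucc (u : Fin s → ℝ) (j : Fin s) : sn0 s u j.castSucc = u j := by
  simp [sn0]

theorem sn0_last (u : Fin s → ℝ) : sn0 s u (Fin.last s) = - ∑ i, u i := by
  simp [sn0]

theorem sum_sn0 (u : Fin s → ℝ) : ∑ q, sn0 s u q = 0 := by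
  rw [Fin.sum_univ_castSucc, sn0_last]
  simp [sn0_castSucc]

theorem sn0_of_sum (w : Fin (s + 1) → ℝ) (hw : ∑ q, w q = 0) :
    sn0 s (fun j => w j.castSucc) = w := by
  ext q
  refine Fin.lastCases ?_ (fun q => ?_) q
  · rw [sn0_last]
    rw [Fin.sum_univ_castSucc] at hw
    linarith
  · rw [sn0_castSucc]

/-- The linear part. -/
noncomputable def Mp (σ : Equiv.Perm (Fin (s + 1))) : (Fin s → ℝ) →ₗ[ℝ] (Fin s → ℝ) :=
  LinearMap.funLeft ℝ ℝ (fun j : Fin s => σ j.castSucc) ∘ₗ sn0 s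

theorem Mp_apply (σ : Equiv.Perm (Fin (s + 1))) (u : Fin s → ℝ) (j : Fin s) :
    Mp σ u j = sn0 s u (σ j.castSucc) := rfl

theorem sn0_Mp (σ : Equiv.Perm (Fin (s + 1))) (u : Fin s → ℝ) :
    sn0 s (Mp σ u) = fun q => sn0 s u (σ q) := by
  refine sn0_of_sum (fun q => sn0 s u (σ q)) ?_
  rw [Equiv.sum_comp σ (fun q => sn0 s u q), sum_sn0]

theorem Mp_mul (σ τ : Equiv.Perm (Fin (s + 1))) : Mp σ * Mp τ = Mp (τ * σ) := by
  refine LinearMap.ext fun u => ?_
  ext j
  rw [Module.End.mul_apply, Mp_apply, sn0_Mp, Mp_apply]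
  rfl

theorem Mp_one : Mp (1 : Equiv.Perm (Fin (s + 1))) = 1 := by
  refine LinearMap.ext fun u => ?_
  ext j
  rw [Mp_apply]
  exact sn0_castSucc u j

theorem Mp_pow (σ : Equiv.Perm (Fin (s + 1))) (k : ℕ) : Mp σ ^ k = Mp (σ ^ k) := by
  induction k with
  | zero => rw [pow_zero, pow_zero, Mp_one]
  | succ k ih => rw [pow_succ', ih, Mp_mul, ← pow_succ]

theorem abs_det (σ : Equiv.Perm (Fin (s + 1))) : |LinearMap.det (Mp σ)| = 1 := by
  have h1 : LinearMap.det (Mp σ) ^ (orderOf σ) = 1 := by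
    rw [← map_pow, Mp_pow, pow_orderOf_eq_one, Mp_one, map_one]
  have h2 : |LinearMap.det (Mp σ)| ^ (orderOf σ) = 1 := by rw [← abs_pow, h1, abs_one]
  exact (pow_eq_one_iff_of_nonneg (abs_nonneg _) (orderOf_pos σ).ne').1 h2

/-- Complete `u` by a last coordinate so that the sum is `1`. -/
noncomputable def sn1 (u : Fin s → ℝ) : Fin (s + 1) → ℝ := Fin.snoc u (1 - ∑ i, u i)

theorem sn1_castSucc (u : Fin s → ℝ) (j : Fin s) : sn1 u j.castSucc = u j := by
  simp [sn1]

theorem sn1_last (u : Fin s → ℝ) : sn1 u (Fin.last s) = 1 - ∑ i, u i := by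
  simp [sn1]

theorem sum_sn1 (u : Fin s → ℝ) : ∑ q, sn1 u q = 1 := by
  rw [Fin.sum_univ_castSucc, sn1_last]
  simp [sn1_castSucc]

theorem sn1_eq (u : Fin s → ℝ) (q : Fin (s + 1)) :
    sn1 u q = sn0 s u q + if q = Fin.last s then 1 else 0 := by
  refine Fin.lastCases ?_ (fun q => ?_) q
  · rw [sn1_last, sn0_last, if_pos rfl]
    ring
  · rw [sn1_castSucc, sn0_castSucc, if_neg (Fin.castSucc_lt_last q).ne, add_zero]

/-- The affine map. -/
noncomputable def Qm (σ : Equiv.Perm (Fin (s + 1))) (u : Fin s → ℝ) : Fin s → ℝ :=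
  fun j => sn1 u (σ j.castSucc)

/-- Its constant part. -/
noncomputable def ev (σ : Equiv.Perm (Fin (s + 1))) : Fin s → ℝ :=
  fun j => if σ j.castSucc = Fin.last s then 1 else 0

theorem Qm_eq (σ : Equiv.Perm (Fin (s + 1))) :
    Qm σ = (fun y => y + ev σ) ∘ Mp σ := by
  funext u
  ext j
  simp only [Function.comp_apply, Pi.add_apply, Qm, sn1_eq, Mp_apply, ev]

theorem mp_Mp (σ : Equiv.Perm (Fin (s + 1))) : MeasurePreserving (Mp σ) volume volume := by
  have h0 : LinearMap.det (Mp σ) ≠ 0 := by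
    intro h0
    have := abs_det σ
    rw [h0, abs_zero] at this
    exact zero_ne_one this
  refine ⟨(Mp σ).continuous_of_finiteDimensional.measurable, ?_⟩
  rw [Measure.map_linearMap_addHaar_eq_smul_addHaar volume h0, abs_inv, abs_det, inv_one,
    ENNReal.ofReal_one, one_smul]

theorem mp_Qm (σ : Equiv.Perm (Fin (s + 1))) : MeasurePreserving (Qm σ) volume volume := by
  rw [Qm_eq]
  exact (measurePreserving_add_right volume (ev σ)).comp (mp_Mp σ)

theorem Mp_inj (σ : Equiv.Perm (Fin (s + 1))) : Function.Injective (Mp σ) := by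
  have h : ∀ u, Mp σ⁻¹ (Mp σ u) = u := by
    intro u
    have h1 : Mp σ⁻¹ * Mp σ = 1 := by rw [Mp_mul, mul_inv_cancel, Mp_one]
    have h2 := LinearMap.congr_fun h1 u
    exact h2
  exact Function.LeftInverse.injective h

theorem emb_Qm (σ : Equiv.Perm (Fin (s + 1))) : MeasurableEmbedding (Qm σ) := by
  refine Continuous.measurableEmbedding ?_ ?_
  · rw [Qm_eq]
    exact (continuous_id.add continuous_const).comp (Mp σ).continuous_of_finiteDimensional
  · rw [Qm_eq]
    exact (add_left_injective (ev σ)).comp (Mp_inj σ)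

theorem mem_Dl_iff (u : Fin s → ℝ) : u ∈ IT7.Dl s 1 ↔ ∀ q, 0 < sn1 u q := by
  rw [Fin.forall_fin_succ']
  simp only [sn1_castSucc, sn1_last, sub_pos]
  rfl

theorem sn1_Qm (σ : Equiv.Perm (Fin (s + 1))) (u : Fin s → ℝ) :
    sn1 (Qm σ u) = fun q => sn1 u (σ q) := by
  ext q
  refine Fin.lastCases ?_ (fun q => ?_) q
  · rw [sn1_last]
    have h1 : ∑ q, sn1 u (σ q) = 1 := by
      rw [Equiv.sum_comp σ (fun q => sn1 u q), sum_sn1]
    rw [Fin.sum_univ_castSucc] at h1
    have h2 : ∑ i, Qm σ u i = ∑ i : Fin s, sn1 u (σ i.castSucc) := rfl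
    linarith
  · rw [sn1_castSucc]
    rfl

theorem pre_Dl (σ : Equiv.Perm (Fin (s + 1))) : Qm σ ⁻¹' IT7.Dl s 1 = IT7.Dl s 1 := by
  ext u
  rw [Set.mem_preimage, mem_Dl_iff, mem_Dl_iff, sn1_Qm]
  constructor
  · intro h q
    have := h (σ⁻¹ q)
    simpa using this
  · intro h q
    exact h (σ q)

/-- The permutation for the omitted part `i`. -/
def pm (i : Fin (s + 1)) : Equiv.Perm (Fin (s + 1)) :=
  (finSuccEquiv' (Fin.last s)).trans (finSuccEquiv' i).symm

theorem pm_castSucc (i : Fin (s + 1)) (j : Fin s) : pm i j.castSucc = i.succAbove j := by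
  unfold pm
  rw [Equiv.trans_apply, ← Fin.succAbove_last_apply, finSuccEquiv'_succAbove]
  simp

/-- Almost everywhere continuous functions are measurable. -/
theorem aesm {ψ : (Fin s → ℝ) → ℝ} (h : ∀ᵐ y, ContinuousAt ψ y) :
    AEStronglyMeasurable ψ volume := by
  have h1 : MeasurableSet {y | ContinuousAt ψ y} := (IsGδ.setOfPred_continuousAt ψ).measurableSet
  have h2 : ContinuousOn ψ {y | ContinuousAt ψ y} := fun y hy =>
    ContinuousAt.continuousWithinAt hy
  have h3 := h2.aestronglyMeasurable (μ := volume) h1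
  have h4 : (volume : Measure (Fin s → ℝ)).restrict {y | ContinuousAt ψ y} = volume :=
    Measure.restrict_eq_self_of_ae_mem (s := {y | ContinuousAt ψ y}) h
  rwa [h4] at h3

/-- Forget the empty index type. -/
noncomputable def Tm (s : ℕ) : (Fin 0 ⊕ Fin s → ℝ) ≃ᵐ (Fin s → ℝ) :=
  MeasurableEquiv.piCongrLeft (fun _ => ℝ) (Equiv.emptySum (Fin 0) (Fin s))

theorem Tm_apply (y : Fin 0 ⊕ Fin s → ℝ) (i : Fin s) : Tm s y i = y (Sum.inr i) := by
  have h := Equiv.piCongrLeft_apply_apply (fun _ : Fin s => ℝ) (Equiv.emptySum (Fin 0) (Fin s)) y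
    (Sum.inr i)
  exact h

theorem mp_Tm (s : ℕ) : MeasurePreserving (Tm s) volume volume :=
  volume_measurePreserving_piCongrLeft (fun _ => ℝ) (Equiv.emptySum (Fin 0) (Fin s))

theorem pre_Sim (s : ℕ) : Tm s ⁻¹' IT7.Dl s 1 = Sim 0 s := by
  ext y
  simp only [Set.mem_preimage, IT7.Dl, Sim, Set.mem_ofPred_eq, Tm_apply]
  rw [Fintype.sum_sum_type]
  simp

theorem sum_eq (y : Fin 0 ⊕ Fin s → ℝ) : ∑ i, y i = ∑ i, Tm s y i := by
  rw [Fintype.sum_sum_type]
  simp [Tm_apply]

theorem ext_eq (ψ : (Fin s → ℝ) → ℝ) (y : Fin 0 ⊕ Fin s → ℝ) :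
    ext (k := 0) (s := s) (fun _ v => gs ψ v) (y, 1 - ∑ i, y i) =
      ∑ i : Fin (s + 1), ψ (Qm (pm i) (Tm s y)) := by
  unfold Two.ext gs
  refine Finset.sum_congr rfl fun i _ => ?_
  congr 1
  funext j
  rw [Qm, pm_castSucc, sn1, ← sum_eq]
  have : Tm s y = fun i => y (Sum.inr i) := funext fun i => Tm_apply y i
  rw [this]

theorem den_eq (y : Fin 0 ⊕ Fin s → ℝ) : den y = 1 := by
  simp [den]

end IN0

open IN0 in
theorem prfN0 : claimN0 := by
  intro s θ ψ hs hθ hθ2 hW
  have hae : ∀ᵐ y : Fin 0 ⊕ Fin s → ℝ, ∀ i : Fin (s + 1),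
      ContinuousAt ψ (Qm (pm i) (Tm s y)) := by
    rw [ae_all_iff]
    intro i
    have h1 := ((mp_Qm (pm i)).comp (mp_Tm s)).quasiMeasurePreserving.ae hW.cont
    exact h1
  constructor
  · refine ae_restrict_of_ae ?_
    filter_upwards [hae] with y hy
    have h1 : ext (k := 0) (s := s) (fun _ v => gs ψ v) =
        fun p : (Fin 0 ⊕ Fin s → ℝ) × ℝ => ∑ i : Fin (s + 1),
          ψ (fun j => (Fin.snoc (fun l => p.1 (Sum.inr l)) p.2 : Fin (s + 1) → ℝ)
            (i.succAbove j)) := rfl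
    rw [h1]
    refine tendsto_finsetSum _ fun i _ => ?_
    have h2 : Continuous fun p : (Fin 0 ⊕ Fin s → ℝ) × ℝ =>
        (fun j => (Fin.snoc (fun l => p.1 (Sum.inr l)) p.2 : Fin (s + 1) → ℝ)
            (i.succAbove j) : Fin s → ℝ) := by
      refine continuous_pi fun j => ?_
      generalize i.succAbove j = q
      refine Fin.lastCases ?_ (fun q => ?_) q
      · simp only [Fin.snoc_last]
        exact continuous_snd
      · simp only [Fin.snoc_castSucc]
        exact (continuous_apply _).comp continuous_fst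
    have h3 : (fun j => (Fin.snoc (fun l => y (Sum.inr l)) (1 - ∑ i, y i) : Fin (s + 1) → ℝ)
            (i.succAbove j) : Fin s → ℝ) = Qm (pm i) (Tm s y) := by
      funext j
      rw [Qm, pm_castSucc, sn1, ← sum_eq]
      have : Tm s y = fun i => y (Sum.inr i) := funext fun i => Tm_apply y i
      rw [this]
    have h4 := hy i
    rw [← h3] at h4
    exact ContinuousAt.comp (f := fun p : (Fin 0 ⊕ Fin s → ℝ) × ℝ =>
        (fun j => (Fin.snoc (fun l => p.1 (Sum.inr l)) p.2 : Fin (s + 1) → ℝ)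
            (i.succAbove j) : Fin s → ℝ)) (g := ψ) (x := (y, 1 - ∑ i, y i)) h4 h2.continuousAt
  · obtain ⟨B, hB⟩ := hW.bdd
    have hmeas : AEStronglyMeasurable ψ volume := aesm hW.cont
    have hDm : MeasurableSet (IT7.Dl s 1) := IT7.measurable_Dl s 1
    have hfin : volume (IT7.Dl s 1) ≠ ⊤ :=
      ((IT7.vol_Dl s 1 zero_le_one).trans_lt ENNReal.ofReal_lt_top).ne
    have hint : IntegrableOn ψ (IT7.Dl s 1) volume := by
      refine Measure.integrableOn_of_bounded (M := B) hfin hmeas ?_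
      refine Eventually.of_forall fun y => ?_
      rw [Real.norm_eq_abs, abs_of_nonneg (hW.nonneg y)]
      exact hB y
    have hcomp : ∀ i : Fin (s + 1), MeasurePreserving (Qm (pm i) ∘ Tm s)
        (volume : Measure (Fin 0 ⊕ Fin s → ℝ)) volume := fun i => (mp_Qm (pm i)).comp (mp_Tm s)
    have hemb : ∀ i : Fin (s + 1), MeasurableEmbedding (Qm (pm i) ∘ Tm s) := fun i =>
      (emb_Qm (pm i)).comp (Tm s).measurableEmbedding
    have hpre : ∀ i : Fin (s + 1), (Qm (pm i) ∘ Tm s) ⁻¹' IT7.Dl s 1 = Sim 0 s := by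
      intro i
      rw [Set.preimage_comp, pre_Dl, pre_Sim]
    have hI : ∀ i : Fin (s + 1), ∫ y in Sim 0 s, ψ (Qm (pm i) (Tm s y)) =
        ∫ u in IT7.Dl s 1, ψ u := by
      intro i
      rw [← hpre i]
      exact (hcomp i).setIntegral_preimage_emb (hemb i) ψ (IT7.Dl s 1)
    have hint2 : ∀ i : Fin (s + 1), IntegrableOn (fun y => ψ (Qm (pm i) (Tm s y))) (Sim 0 s) := by
      intro i
      rw [← hpre i]
      exact ((hcomp i).integrableOn_comp_preimage (hemb i)).2 hint
    have h1 : ∫ y in Sim 0 s, ext (k := 0) (s := s) (fun _ v => gs ψ v)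
        (y, 1 - ∑ i, y i) * den y = ∫ y in Sim 0 s, ∑ i : Fin (s + 1), ψ (Qm (pm i) (Tm s y)) := by
      refine integral_congr_ae (Eventually.of_forall fun y => ?_)
      simp only
      rw [ext_eq, den_eq, mul_one]
    rw [h1, integral_finsetSum _ fun i _ => hint2 i, Finset.sum_congr rfl fun i _ => hI i,
      Finset.sum_const, Finset.card_univ, Fintype.card_fin, nsmul_eq_mul]
    push_cast
    congr 1
    symm
    refine setIntegral_eq_of_subset_of_forall_sdiff_eq_zero
      (MeasurableSet.univ_pi fun _ => measurableSet_Ioo) ?_ ?_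
    · rintro u ⟨hu, hu1⟩ i _
      refine ⟨hu i, ?_⟩
      have h3 : u i ≤ ∑ i, u i :=
        Finset.single_le_sum (f := u) (fun i _ => (hu i).le) (Finset.mem_univ i)
      linarith
    · rintro u ⟨hu, hu1⟩
      by_contra h0
      apply hu1
      refine ⟨fun i => (hu i (Set.mem_univ i)).1, ?_⟩
      have := (hW.supp u h0).2
      linarith

end Pool.Agent.Work.MP_122e00_nt.Gen
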