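import Pool.Agent.Work.MP_122e00_nt.Gen.Stmts2
import Pool.Agent.Work.MP_122e00_nt.Gen.Main

set_option autoImplicit false

/-!
# Item E6: the chain scheme on the integers with small large primes
-/

namespace Pool.Agent.Work.MP_122e00_nt.Gen

open Finset Filter Topology MeasureTheory

open Two

namespace IE6

open Classical in
/-- The structure function of the chain scheme, with a small mark. -/
noncomputable def FS (s : ℕ) (c η : ℝ) (k : ℕ) (x : Fin k → ℝ) (v : Fin (s + 1) → ℝ) : ℝ :=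
  if ∃ i, x i ≤ η then FB s c k x v else 0

theorem FS_nonneg (s : ℕ) (c η : ℝ) (k : ℕ) (x : Fin k → ℝ) (v : Fin (s + 1) → ℝ) :
    0 ≤ FS s c η k x v := by
  unfold FS
  split_ifs
  · exact ((prfB7 s c).1 k x v).1
  · exact le_rfl

theorem FS_le (s : ℕ) (c η : ℝ) (k : ℕ) (x : Fin k → ℝ) (v : Fin (s + 1) → ℝ) :
    FS s c η k x v ≤ (((s : ℝ) + 1) ^ 2) ^ k := by
  unfold FS
  split_ifs
  · exact ((prfB7 s c).1 k x v).2
  · positivity

theorem ae_coord (k s : ℕ) (η : ℝ) (i : Fin k) :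
    ∀ᵐ y : Fin k ⊕ Fin s → ℝ, y (Sum.inl i) ≠ η := by
  have h := IB7.ae_ne (LinearMap.proj (Sum.inl i) : (Fin k ⊕ Fin s → ℝ) →ₗ[ℝ] ℝ)
    (fun _ => 1) (by simp) η
  filter_upwards [h] with y hy e
  exact hy e

theorem FS_cont (s : ℕ) (c η : ℝ) (k : ℕ) :
    ∀ᵐ y ∂(volume.restrict (Sim k s)), ContinuousAt (ext (FS s c η k)) (y, 1 - ∑ i, y i) := by
  have hall : ∀ᵐ y : Fin k ⊕ Fin s → ℝ, ∀ i : Fin k, y (Sum.inl i) ≠ η :=
    ae_all_iff.2 fun i => ae_coord k s η i
  filter_upwards [(prfB7 s c).2.2 k, ae_restrict_of_ae hall] with y h1 h2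
  by_cases h : ∃ i : Fin k, y (Sum.inl i) ≤ η
  · obtain ⟨i, hi⟩ := h
    have hi' : y (Sum.inl i) < η := lt_of_le_of_ne hi (h2 i)
    have hc : ContinuousAt (fun p : (Fin k ⊕ Fin s → ℝ) × ℝ => p.1 (Sum.inl i))
        (y, 1 - ∑ i, y i) := by
      have : Continuous (fun p : (Fin k ⊕ Fin s → ℝ) × ℝ => p.1 (Sum.inl i)) := by fun_prop
      exact this.continuousAt
    refine h1.congr ?_
    filter_upwards [hc.eventually_lt continuousAt_const hi'] with p hp
    have he : ∃ i : Fin k, p.1 (Sum.inl i) ≤ η := ⟨i, hp.le⟩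
    show _ = FS s c η k (fun i => p.1 (Sum.inl i)) _
    unfold FS
    rw [if_pos he]
    rfl
  · have h3 : ∀ i : Fin k, η < y (Sum.inl i) := fun i => not_le.1 fun hi => h ⟨i, hi⟩
    have hk : ContinuousAt (fun _ : (Fin k ⊕ Fin s → ℝ) × ℝ => (0 : ℝ))
      (y, 1 - ∑ i, y i) := continuousAt_const
    refine hk.congr ?_
    have hev : ∀ᶠ p : (Fin k ⊕ Fin s → ℝ) × ℝ in 𝓝 (y, 1 - ∑ i, y i),
        ∀ i : Fin k, η < p.1 (Sum.inl i) := by
      rw [Filter.eventually_all]
      intro i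
      have hc : ContinuousAt (fun p : (Fin k ⊕ Fin s → ℝ) × ℝ => p.1 (Sum.inl i))
          (y, 1 - ∑ i, y i) := by
        have : Continuous (fun p : (Fin k ⊕ Fin s → ℝ) × ℝ => p.1 (Sum.inl i)) := by fun_prop
        exact this.continuousAt
      exact ContinuousAt.eventually_lt continuousAt_const hc (h3 i)
    filter_upwards [hev] with p hp
    have he : ¬ ∃ i : Fin k, p.1 (Sum.inl i) ≤ η := fun ⟨i, hi⟩ => absurd (hp i) (not_lt.2 hi)
    show _ = FS s c η k (fun i => p.1 (Sum.inl i)) _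
    unfold FS
    rw [if_neg he]

theorem mean_sum {s h : ℕ} {ψ : (Fin s → ℝ) → ℝ} (H : ℕ → ℝ → ℕ → ℝ) (I : ℕ → ℝ)
    (hM : ∀ k, Mean s h ψ (H k) (I k)) (K : ℕ) :
    Mean s h ψ (fun X n => ∑ k ∈ Finset.range K, H k X n) (∑ k ∈ Finset.range K, I k) := by
  induction K with
  | zero =>
    intro δ hδ
    filter_upwards [eventually_gt_atTop (1 : ℝ)] with X hX z _
    have hL : 0 < Real.log X := Real.log_pos hX
    simp only [Finset.range_zero, Finset.sum_empty, mul_zero, Finset.sum_const_zero, zero_add]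
    positivity
  | succ K ih =>
    simp only [Finset.sum_range_succ]
    exact prfM2 s h ψ _ _ _ _ ih (hM K)

theorem mean_mono {s h : ℕ} {ψ : (Fin s → ℝ) → ℝ} {H : ℝ → ℕ → ℝ} {I I' : ℝ}
    (hM : Mean s h ψ H I)
    (hI : Csing s h * (∫ y in O1 s, ψ y) * I ≤ Csing s h * (∫ y in O1 s, ψ y) * I') :
    Mean s h ψ H I' := by
  intro δ hδ
  filter_upwards [hM δ hδ, eventually_gt_atTop (1 : ℝ)] with X h1 hX z hz
  have hL : 0 < Real.log X := Real.log_pos hX
  refine (h1 z hz).trans (mul_le_mul_of_nonneg_right ?_ (by positivity))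
  linarith

theorem TS_FB_nonneg {L : ℝ} {s n : ℕ} (hL : 0 < L) (hn : n ≠ 0) (c : ℝ) (k : ℕ) :
    0 ≤ TS L s k n (FB s c k) :=
  Two.prfT2 _ s k n hL hn _ fun x v _ _ _ => ((prfB7 s c).1 k x v).1

theorem TS_FS_nonneg {L : ℝ} {s n : ℕ} (hL : 0 < L) (hn : n ≠ 0) (c η : ℝ) (k : ℕ) :
    0 ≤ TS L s k n (FS s c η k) :=
  Two.prfT2 _ s k n hL hn _ fun x v _ _ _ => FS_nonneg s c η k x v

/-- On the integers with small large primes a short chain has a small mark. -/
theorem TS_FB_le (hX1 : claimX1) (hE3 : claimE3) {L η c : ℝ} {s n J k : ℕ} (hL : 0 < L)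
    (hη : 0 < η) (hn : n ≠ 0) (hB : ¬ Bad η L n) (hC : Cinf η L c J n) (hk : k ≤ J) :
    TS L s k n (FB s c k) ≤ TS L s k n (FS s c η k) := by
  refine hX1 L s k n _ _ hL hn fun d hd hdn v _ _ => ?_
  obtain ⟨_, h2, h3⟩ := hE3 L η c n k d hL hη hn hB hd hdn
  unfold FS
  split_ifs with h
  · exact le_rfl
  · rcases k with _ | k
    · exact le_rfl
    · simp only [FB]
      split_ifs with hst
      · exfalso
        rcases hC with hC | hC
        · exact h (h3 hC hst.1)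
        · exact absurd hst.1 (not_le.2 (h2 J hC.1 hC.2 hk))
      · exact le_rfl

end IE6

open IE6 in
theorem prfE6 (hX0 : claimX0) (hX1 : claimX1) (hE3 : claimE3) (hE5 : claimE5) : claimE6 := by
  classical
  intro s h θ c ψ hs hh hθ hθ1 hW hc hc1
  have hA : 0 ≤ Csing s h * (∫ y in O1 s, ψ y) :=
    mul_nonneg (Csing_pos hs h hh).le (integral_nonneg fun y => hW.nonneg y)
  have hC0 : (1 : ℝ) ≤ ((s : ℝ) + 1) ^ 2 := by
    have : (0 : ℝ) ≤ (s : ℝ) := by positivity
    nlinarith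
  obtain ⟨hB1, hB2, hB3⟩ := prfB7 s c
  rcases eq_or_lt_of_le hA with hA0 | hA0
  · obtain ⟨c₀, hc0, hM⟩ := mM3 s h θ ψ hs hh hθ hθ1 hW (FB s c) (((s : ℝ) + 1) ^ 2) c _ hC0 hc
      hc1 hB1 hB2 hB3 (mB9 s c hs hc hc1)
    refine ⟨c₀, hc0, fun ε hε => ⟨0, fun J _ => ⟨1, one_pos, fun η hη hη1 c₁ hc1 hc1' => ?_⟩⟩⟩
    refine (hX0 s h θ ψ hW).1 _ (fun X n => HB s c c₁ X n) ε ?_ ?_
    · refine mean_mono (hM c₁ hc1 hc1') ?_
      rw [← hA0, zero_mul, zero_mul]
    · filter_upwards [eventually_gt_atTop (1 : ℝ)] with X hX n hn1 _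
      have hL : 0 < Real.log X := Real.log_pos hX
      have hn : n ≠ 0 := by
        rintro rfl
        have : 0 < X / Real.log X := by positivity
        simp only [Nat.cast_zero] at hn1
        linarith
      have h0 : 0 ≤ HB s c c₁ X n := Finset.sum_nonneg fun k _ => TS_FB_nonneg hL hn c k
      split_ifs
      · exact le_rfl
      · exact h0
  · obtain ⟨c₀, hc0, hM⟩ := prfM4 s h θ ψ hs hh hθ hθ1 hW (((s : ℝ) + 1) ^ 2) c hC0 hc hc1
    refine ⟨c₀, hc0, fun ε hε => ?_⟩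
    obtain ⟨K, hK⟩ := hM c₀ hc0 le_rfl (Csing s h * (∫ y in O1 s, ψ y) * (ε / 2))
      (mul_pos hA0 (half_pos hε))
    have hK1 := hK (FB s c) fun k x v => ⟨(hB1 (k + 1) x v).1, hB2 k x v⟩
    refine ⟨K, fun J hJ => ?_⟩
    obtain ⟨η₀, hη0, hE⟩ := hE5 s J c (ε / 2) hs hc hc1 (half_pos hε)
    refine ⟨η₀, hη0, fun η hη hη1 c₁ hc1 hc1' => ?_⟩
    have hS : Mean s h ψ (fun X n => ∑ k ∈ Finset.range (J + 1),
        TS (Real.log X) s k n (FS s c η k)) (ε / 2) := by
      have h1 := mean_sum (s := s) (h := h) (ψ := ψ)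
        (fun k X n => TS (Real.log X) s k n (FS s c η k))
        (fun k => ∫ y in Sim k s, ext (FS s c η k) (y, 1 - ∑ i, y i) * den y)
        (fun k => prfM1 s k h θ ψ hs hh hθ hθ1 hW (FS s c η k) ((((s : ℝ) + 1) ^ 2) ^ k)
          (fun x v => by
            rw [abs_of_nonneg (FS_nonneg s c η k x v)]
            exact FS_le s c η k x v) (FS_cont s c η k)) (J + 1)
      refine mean_mono h1 (mul_le_mul_of_nonneg_left ?_ hA)
      exact hE η hη hη1
    have hT : Mean s h ψ (fun X n => ∑ k ∈ Finset.Ioc K ⌊c₀ * Real.log X⌋₊,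
        TS (Real.log X) s k n (FB s c k)) (ε / 2) := by
      intro δ hδ
      filter_upwards [hK1, eventually_gt_atTop (1 : ℝ)] with X h1 hX z hz
      have hL : 0 < Real.log X := Real.log_pos hX
      refine (h1 z hz).trans (mul_le_mul_of_nonneg_right ?_ (by positivity))
      linarith
    have hST := prfM2 s h ψ _ _ _ _ hS hT
    rw [add_halves] at hST
    refine (hX0 s h θ ψ hW).1 _ _ ε hST ?_
    filter_upwards [eventually_gt_atTop (1 : ℝ)] with X hX n hn1 _
    have hL : 0 < Real.log X := Real.log_pos hX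
    have hn : n ≠ 0 := by
      rintro rfl
      have : 0 < X / Real.log X := by positivity
      simp only [Nat.cast_zero] at hn1
      linarith
    split_ifs with hb
    · obtain ⟨hb1, hb2⟩ := hb
      calc HB s c c₁ X n ≤ ∑ k ∈ Finset.range (J + 1), TS (Real.log X) s k n (FB s c k) +
            ∑ k ∈ Finset.Ioc J ⌊c₁ * Real.log X⌋₊, TS (Real.log X) s k n (FB s c k) :=
            IM3.split_le (fun k => TS (Real.log X) s k n (FB s c k))
              (fun k => TS_FB_nonneg hL hn c k) J _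
        _ ≤ _ := by
            refine add_le_add ?_ ?_
            · refine Finset.sum_le_sum fun k hk => ?_
              exact TS_FB_le hX1 hE3 hL hη hn hb1 hb2 (Nat.lt_succ_iff.1 (Finset.mem_range.1 hk))
            · refine Finset.sum_le_sum_of_subset_of_nonneg ?_ fun k _ _ =>
                TS_FB_nonneg hL hn c k
              refine Finset.Ioc_subset_Ioc hJ (Nat.floor_le_floor ?_)
              exact mul_le_mul_of_nonneg_right hc1' hL.le
    · exact add_nonneg (Finset.sum_nonneg fun k _ => TS_FS_nonneg hL hn c η k)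
        (Finset.sum_nonneg fun k _ => TS_FB_nonneg hL hn c k)

end Pool.Agent.Work.MP_122e00_nt.Gen
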