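import Pool.Agent.Work.MP_122e00_nt.Gen.Stmts2
import Pool.Agent.Work.MP_122e00_nt.Bd.B45
import Pool.Agent.Work.MP_122e00_nt.Bd.B40
import Pool.Agent.Work.MP_122e00_nt.Euler4

set_option autoImplicit false

/-!
# Item E8: the exceptional integers
-/

namespace Pool.Agent.Work.MP_122e00_nt.Gen

open Finset Filter Topology MeasureTheory

open scoped ArithmeticFunction.vonMangoldt ArithmeticFunction.zeta

open Two

namespace IE8

theorem FB_nonneg (s : ℕ) (c : ℝ) (k : ℕ) (x : Fin k → ℝ) (v : Fin (s + 1) → ℝ) :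
    0 ≤ FB s c k x v := by
  cases k with
  | zero => simp [FB]
  | succ k =>
    simp only [FB]
    split_ifs <;> positivity

theorem HB_nonneg (s : ℕ) (c c₁ X : ℝ) (n : ℕ) (hL : 0 < Real.log X) (hn : n ≠ 0) :
    0 ≤ HB s c c₁ X n := by
  unfold HB
  refine Finset.sum_nonneg fun k _ => ?_
  exact Two.prfT2 _ s k n hL hn _ fun x v _ _ _ => FB_nonneg s c k x v

theorem Wn_nonneg (s : ℕ) (ψ : (Fin s → ℝ) → ℝ) (hψ : ∀ y, 0 ≤ ψ y) (L : ℝ) (n : ℕ) (hL : 0 < L)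
    (hn : n ≠ 0) : 0 ≤ Wn s ψ L n := by
  unfold Wn
  exact Two.prfT2 _ s 0 n hL hn _ fun x v _ _ _ => Finset.sum_nonneg fun i _ => hψ _

theorem dv_nonneg (s n : ℕ) : 0 ≤ dv s n := Nat.cast_nonneg _

theorem dv_one_le (s n : ℕ) (h : 0 < dv s n) : 1 ≤ dv s n := by
  unfold dv at h ⊢
  have : 0 < ((ζ : ArithmeticFunction ℕ) ^ (s + 1)) n := by exact_mod_cast h
  exact_mod_cast this

theorem mean_zero (s h : ℕ) (ψ : (Fin s → ℝ) → ℝ) : Mean s h ψ (fun _ _ => 0) 0 := by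
  intro δ hδ
  filter_upwards [eventually_ge_atTop (1 : ℝ)] with X hX z hz
  simp only [mul_zero, Finset.sum_const_zero, zero_add]
  have := Real.log_nonneg hX
  positivity

theorem mean_sum (s h : ℕ) (ψ : (Fin s → ℝ) → ℝ) (S : Finset ℕ) (H : ℕ → ℝ → ℕ → ℝ) (I : ℕ → ℝ)
    (hH : ∀ j ∈ S, Mean s h ψ (H j) (I j)) :
    Mean s h ψ (fun X n => ∑ j ∈ S, H j X n) (∑ j ∈ S, I j) := by
  classical
  induction S using Finset.induction_on with
  | empty => simpa using mean_zero s h ψ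
  | insert a S ha ih =>
    have h1 := prfM2 s h ψ _ _ _ _ (hH a (Finset.mem_insert_self _ _))
      (ih fun j hj => hH j (Finset.mem_insert_of_mem hj))
    simp only [Finset.sum_insert ha]
    exact h1

theorem mean_mono (s h : ℕ) (hs : 1 ≤ s) (hh : h ≠ 0) (ψ : (Fin s → ℝ) → ℝ) (hψ : ∀ y, 0 ≤ ψ y)
    (H : ℝ → ℕ → ℝ) {I I' : ℝ} (hI : I ≤ I') (hM : Mean s h ψ H I) : Mean s h ψ H I' := by
  intro δ hδ
  have hA : 0 ≤ Csing s h * (∫ y in O1 s, ψ y) :=
    mul_nonneg (Csing_pos hs h hh).le (integral_nonneg fun y => hψ y)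
  filter_upwards [hM δ hδ, eventually_ge_atTop (1 : ℝ)] with X hX hX1 z hz
  refine (hX z hz).trans ?_
  have := Real.log_nonneg hX1
  have hY : 0 ≤ X * (Real.log X) ^ (2 * s) := by positivity
  refine mul_le_mul_of_nonneg_right ?_ hY
  have := mul_le_mul_of_nonneg_left hI hA
  linarith

open Classical in
/-- the term of index j -/
noncomputable def H1 (s : ℕ) (η c : ℝ) (j : ℕ) (X : ℝ) (n : ℕ) : ℝ :=
  if ¬ Bad η (Real.log X) n ∧ j ≤ (LP η (Real.log X) n).card ∧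
        Sm η (Real.log X) c j n then dv s n else 0

open Classical in
noncomputable def H2 (s : ℕ) (η c c₁ : ℝ) (J : ℕ) (X : ℝ) (n : ℕ) : ℝ :=
  if ¬ Bad η (Real.log X) n ∧ Cinf η (Real.log X) c J n
        then HB s c c₁ X n else 0

open Classical in
noncomputable def H3 (s : ℕ) (η c c₁ : ℝ) (X : ℝ) (n : ℕ) : ℝ :=
  if Bad η (Real.log X) n then HB s c c₁ X n else 0

noncomputable def HE (s : ℕ) (η c c₁ w₀ : ℝ) (j₀ J : ℕ) (X : ℝ) (n : ℕ) : ℝ :=
  ∑ j ∈ Finset.Ico j₀ J, ((s : ℝ) + 1) ^ (j + 1) / w₀ * H1 s η c j X n +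
    w₀⁻¹ * H2 s η c c₁ J X n + w₀⁻¹ * H3 s η c c₁ X n

theorem H1_nonneg (s : ℕ) (η c : ℝ) (j : ℕ) (X : ℝ) (n : ℕ) : 0 ≤ H1 s η c j X n := by
  unfold H1
  split_ifs
  · exact dv_nonneg s n
  · exact le_rfl

theorem H2_nonneg (s : ℕ) (η c c₁ : ℝ) (J : ℕ) (X : ℝ) (n : ℕ) (hL : 0 < Real.log X)
    (hn : n ≠ 0) : 0 ≤ H2 s η c c₁ J X n := by
  unfold H2
  split_ifs
  · exact HB_nonneg s c c₁ X n hL hn
  · exact le_rfl

theorem H3_nonneg (s : ℕ) (η c c₁ : ℝ) (X : ℝ) (n : ℕ) (hL : 0 < Real.log X)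
    (hn : n ≠ 0) : 0 ≤ H3 s η c c₁ X n := by
  unfold H3
  split_ifs
  · exact HB_nonneg s c c₁ X n hL hn
  · exact le_rfl

theorem S1_nonneg (s : ℕ) (η c w₀ : ℝ) (hw : 0 < w₀) (j₀ J : ℕ) (X : ℝ) (n : ℕ) :
    0 ≤ ∑ j ∈ Finset.Ico j₀ J, ((s : ℝ) + 1) ^ (j + 1) / w₀ * H1 s η c j X n :=
  Finset.sum_nonneg fun j _ => mul_nonneg (by positivity) (H1_nonneg s η c j X n)

theorem Sm_zero (η L c : ℝ) (hc : 0 < c) (n : ℕ) : Sm η L c 0 n := by
  intro P hP hcard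
  rw [Finset.card_eq_zero] at hcard
  rw [hcard]
  simpa using hc

/-- the main pointwise step: not Bad, not Cinf -/
theorem main_case (hE1 : claimE1) (s : ℕ) (θ c w₀ : ℝ) (ψ : (Fin s → ℝ) → ℝ) (hs : 1 ≤ s)
    (hθ : 0 < θ) (hθ1 : θ ≤ 1 / 10) (hc : c = ((s : ℝ) - 1) / (2 * s) + 2 * θ) (hc0 : 0 < c)
    (hW : Wt s θ ψ) (hw : 0 < w₀)
    (hψ : ∀ y, (∀ i, 0 ≤ y i) → ∑ i, y i ≤ 1 / 2 - θ → w₀ ≤ ψ y) (j₀ : ℕ) (R : ℝ)
    (hR : ((s : ℝ) + 1) ^ j₀ ≤ R * w₀) (X η : ℝ) (n J : ℕ) (hL : 0 < Real.log X)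
    (hn : n ≠ 0) (hlog : Real.log n / Real.log X ≤ 1) (hη : 0 < η)
    (hBad : ¬ Bad η (Real.log X) n)
    (hC : ¬ Cinf η (Real.log X) c J n)
    (hex : R * Wn s ψ (Real.log X) n < dv s n) :
    dv s n ^ 2 ≤ (∑ j ∈ Finset.Ico j₀ J, ((s : ℝ) + 1) ^ (j + 1) / w₀ * H1 s η c j X n) *
      Wn s ψ (Real.log X) n := by
  classical
  have hWn := Wn_nonneg s ψ hW.nonneg (Real.log X) n hL hn
  have hd0 := dv_nonneg s n
  unfold Cinf at hC
  push Not at hC
  obtain ⟨hC1, hC2⟩ := hC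
  have hnot : ¬ Sm η (Real.log X) c (LP η (Real.log X) n).card n := by
    intro hS
    exact absurd (hS _ (Finset.Subset.refl _) rfl) (not_lt.2 hC1)
  have hexj : ∃ j, ¬ Sm η (Real.log X) c j n := ⟨_, hnot⟩
  set j := Nat.find hexj with hj
  have hj1 : ¬ Sm η (Real.log X) c j n := Nat.find_spec hexj
  have hjmin : ∀ i, i < j → Sm η (Real.log X) c i n := fun i hi => by
    have := Nat.find_min hexj hi
    exact not_not.1 this
  have hjcard : j ≤ (LP η (Real.log X) n).card := Nat.find_min' hexj hnot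
  have hjpos : j ≠ 0 := by
    intro h0
    rw [h0] at hj1
    exact hj1 (Sm_zero _ _ _ hc0 n)
  obtain ⟨i, hi⟩ := Nat.exists_eq_succ_of_ne_zero hjpos
  have hP : ∃ P ⊆ LP η (Real.log X) n, P.card = j ∧ c ≤ ∑ p ∈ P, Real.log p / Real.log X := by
    unfold Sm at hj1
    push Not at hj1
    exact hj1
  obtain ⟨P, hP1, hP2, hP3⟩ := hP
  have hE := hE1 s θ c w₀ ψ hs hθ hθ1 hc hW hw hψ (Real.log X) η n j hL hn hlog hBad hη P hP1
    hP2 hP3
  have hr1 : (1 : ℝ) ≤ (s : ℝ) + 1 := by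
    have : (0 : ℝ) ≤ s := Nat.cast_nonneg _
    linarith
  have hij : j₀ ≤ i := by
    by_contra hlt
    have hle : j ≤ j₀ := by omega
    have h1 : ((s : ℝ) + 1) ^ j ≤ ((s : ℝ) + 1) ^ j₀ := pow_le_pow_right₀ hr1 hle
    have h2 : dv s n * w₀ ≤ R * w₀ * Wn s ψ (Real.log X) n :=
      hE.trans (mul_le_mul_of_nonneg_right (h1.trans hR) hWn)
    have h3 : dv s n ≤ R * Wn s ψ (Real.log X) n := by
      have : dv s n * w₀ ≤ (R * Wn s ψ (Real.log X) n) * w₀ := by linarith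
      exact le_of_mul_le_mul_right this hw
    linarith
  have hiJ : i < J := by
    by_contra hge
    push Not at hge
    exact hC2 (by omega) (hjmin J (by omega))
  have hterm : ((s : ℝ) + 1) ^ (i + 1) / w₀ * H1 s η c i X n ≤
      ∑ j ∈ Finset.Ico j₀ J, ((s : ℝ) + 1) ^ (j + 1) / w₀ * H1 s η c j X n := by
    refine Finset.single_le_sum (f := fun j => ((s : ℝ) + 1) ^ (j + 1) / w₀ * H1 s η c j X n)
      (fun j _ => mul_nonneg (by positivity) (H1_nonneg s η c j X n)) ?_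
    rw [Finset.mem_Ico]; exact ⟨hij, hiJ⟩
  have hH1 : H1 s η c i X n = dv s n := by
    unfold H1
    rw [if_pos ⟨hBad, by omega, hjmin i (by omega)⟩]
  rw [hH1] at hterm
  refine le_trans ?_ (mul_le_mul_of_nonneg_right hterm hWn)
  have h4 : dv s n ≤ ((s : ℝ) + 1) ^ (i + 1) / w₀ * Wn s ψ (Real.log X) n := by
    rw [div_mul_eq_mul_div, le_div_iff₀ hw]
    rw [hi] at hE
    exact hE
  calc dv s n ^ 2 = dv s n * dv s n := by ring
    _ ≤ dv s n * (((s : ℝ) + 1) ^ (i + 1) / w₀ * Wn s ψ (Real.log X) n) :=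
      mul_le_mul_of_nonneg_left h4 hd0
    _ = ((s : ℝ) + 1) ^ (i + 1) / w₀ * dv s n * Wn s ψ (Real.log X) n := by ring

end IE8

open IE8 in
theorem prfE8 (hX0 : claimX0) (hE1 : claimE1) (hE2 : claimE2) (hE4 : claimE4) (hE6 : claimE6)
    (hE7 : claimE7) : claimE8 := by
  intro s h θ c w₀ ψ hs hh hθ hθ1 hc hW hw hψ j₀ m R E₀ hj₀ hR2 hR hE₀ ε hε
  have hs' : (1 : ℝ) ≤ s := by exact_mod_cast hs
  have hc0 : 0 < c := by
    rw [hc]
    have : 0 ≤ ((s : ℝ) - 1) / (2 * s) := div_nonneg (by linarith) (by linarith)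
    linarith
  have hc1 : c < 1 := by
    rw [hc]
    have : ((s : ℝ) - 1) / (2 * s) ≤ 1 / 2 := by
      rw [div_le_iff₀ (by linarith)]
      linarith
    linarith
  obtain ⟨c₀, hc₀, h6⟩ := hE6 s h θ c ψ hs hh hθ (by linarith) hW hc0 hc1
  obtain ⟨J₁, h6⟩ := h6 (w₀ * ε) (by positivity)
  obtain ⟨η, hη, h6⟩ := h6 (max J₁ (j₀ + 1)) (le_max_left _ _)
  obtain ⟨c₀', hc₀', h7⟩ := hE7 s h θ c η ψ hs hh hθ (by linarith) hW hc0 hc1 hη
  set J := max J₁ (j₀ + 1) with hJ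
  set c₁ := min c₀ c₀' with hc₁
  have hc₁p : 0 < c₁ := lt_min hc₀ hc₀'
  have h6' := h6 η hη le_rfl c₁ hc₁p (min_le_left _ _)
  have h7' := h7 c₁ hc₁p (min_le_right _ _)
  have h2' := hE2 s θ c w₀ ψ hs hθ hθ1 hc hW hw hψ c₁ hc₁p
  obtain ⟨x1, x2⟩ := hX0 s h θ ψ hW
  refine ⟨HE s η c c₁ w₀ j₀ J, ?_, ?_⟩
  · -- the mean
    have m1 : Mean s h ψ (fun X n => ∑ j ∈ Finset.Ico j₀ J,
        ((s : ℝ) + 1) ^ (j + 1) / w₀ * H1 s η c j X n)
        (∑ j ∈ Finset.Ico j₀ J, ((s : ℝ) + 1) ^ (j + 1) / w₀ * Vf s j (j + m) c) := by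
      refine mean_sum s h ψ _ _ _ fun j hj => ?_
      rw [Finset.mem_Ico] at hj
      exact x2 _ _ _ (by positivity) (hE4 s h j (j + m) θ η c ψ hs hh hθ (by linarith) hW hη hc0
        (by omega))
    have m2 : Mean s h ψ (fun X n => w₀⁻¹ * H2 s η c c₁ J X n) (w₀⁻¹ * (w₀ * ε)) :=
      x2 _ _ _ (by positivity) h6'
    have m3 : Mean s h ψ (fun X n => w₀⁻¹ * H3 s η c c₁ X n) (w₀⁻¹ * 0) :=
      x2 _ _ _ (by positivity) h7'
    have m4 := prfM2 s h ψ _ _ _ _ (prfM2 s h ψ _ _ _ _ m1 m2) m3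
    refine mean_mono s h hs hh ψ hW.nonneg _ ?_ m4
    have e1 : ∑ j ∈ Finset.Ico j₀ J, ((s : ℝ) + 1) ^ (j + 1) / w₀ * Vf s j (j + m) c =
        (∑ j ∈ Finset.Ico j₀ J, ((s : ℝ) + 1) ^ (j + 1) * Vf s j (j + m) c) / w₀ := by
      rw [Finset.sum_div]
      refine Finset.sum_congr rfl fun j _ => ?_
      ring
    have e2 : (∑ j ∈ Finset.Ico j₀ J, ((s : ℝ) + 1) ^ (j + 1) * Vf s j (j + m) c) / w₀ ≤ E₀ := by
      rw [div_le_iff₀ hw]
      have := hE₀ J
      linarith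
    rw [e1]
    have e3 : w₀⁻¹ * (w₀ * ε) = ε := by field_simp
    rw [e3, mul_zero]
    linarith
  · -- pointwise
    filter_upwards [h2', eventually_gt_atTop (2 : ℝ)] with X hX hX2 n hn1 hn2
    have hX0 : 0 < X := by linarith
    have hL : 0 < Real.log X := Real.log_pos (by linarith)
    have hn : n ≠ 0 := by
      rintro rfl
      have : 0 < X / Real.log X := by positivity
      simp only [Nat.cast_zero] at hn1
      linarith
    have hnpos : (0 : ℝ) < n := by exact_mod_cast Nat.pos_of_ne_zero hn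
    have hlog : Real.log n / Real.log X ≤ 1 := by
      rw [div_le_one hL]
      exact Real.log_le_log hnpos hn2
    have a1 := S1_nonneg s η c w₀ hw j₀ J X n
    have a2 := H2_nonneg s η c c₁ J X n hL hn
    have a3 := H3_nonneg s η c c₁ X n hL hn
    have hwi : 0 < w₀⁻¹ := by positivity
    have a2' : 0 ≤ w₀⁻¹ * H2 s η c c₁ J X n := mul_nonneg hwi.le a2
    have a3' : 0 ≤ w₀⁻¹ * H3 s η c c₁ X n := mul_nonneg hwi.le a3
    have hWn := Wn_nonneg s ψ hW.nonneg (Real.log X) n hL hn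
    have hd0 := dv_nonneg s n
    refine ⟨?_, fun hex => ?_⟩
    · unfold HE
      linarith
    · have hWd : 2 * Wn s ψ (Real.log X) n < dv s n := by
        have := mul_le_mul_of_nonneg_right hR2 hWn
        linarith
      have hdpos : 0 < dv s n := by linarith
      have hd1 := dv_one_le s n hdpos
      -- the case in which HE ≥ w₀⁻¹ HB
      have hcase : w₀⁻¹ * HB s c c₁ X n ≤ HE s η c c₁ w₀ j₀ J X n →
          ∃ l : ℝ, |l| ≤ X⁻¹ ∧ (dv s n - Wn s ψ (Real.log X) n - l) ^ 2 ≤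
            HE s η c c₁ w₀ j₀ J X n * Wn s ψ (Real.log X) n := by
        intro hle
        obtain ⟨_, l, hl0, hl1, hl2⟩ := hX n hn1 hn2
        refine ⟨l, by rw [abs_of_nonneg hl0]; exact hl1, ?_⟩
        have hl3 : l ≤ 1 / 2 := by
          refine hl1.trans ?_
          rw [inv_le_comm₀ hX0 (by norm_num)]
          norm_num
          exact hX2.le
        have h1 : (dv s n - Wn s ψ (Real.log X) n - l) ^ 2 ≤ (dv s n - l) ^ 2 := by
          refine pow_le_pow_left₀ ?_ ?_ 2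
          · linarith
          · linarith
        refine h1.trans (le_trans ?_ (mul_le_mul_of_nonneg_right hle hWn))
        exact hl2
      by_cases hBad : Bad η (Real.log X) n
      · refine hcase ?_
        have : H3 s η c c₁ X n = HB s c c₁ X n := by
          unfold H3; rw [if_pos hBad]
        unfold HE
        rw [this]
        linarith
      · by_cases hC : Cinf η (Real.log X) c J n
        · refine hcase ?_
          have : H2 s η c c₁ J X n = HB s c c₁ X n := by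
            unfold H2; rw [if_pos ⟨hBad, hC⟩]
          unfold HE
          rw [this]
          linarith
        · refine ⟨0, by rw [abs_zero]; positivity, ?_⟩
          have hm := main_case hE1 s θ c w₀ ψ hs hθ hθ1 hc hc0 hW hw hψ j₀ R hR X η n J hL hn
            hlog hη hBad hC hex
          have h1 : (dv s n - Wn s ψ (Real.log X) n - 0) ^ 2 ≤ dv s n ^ 2 := by
            refine pow_le_pow_left₀ ?_ ?_ 2
            · linarith
            · linarith
          refine h1.trans (hm.trans (mul_le_mul_of_nonneg_right ?_ hWn))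
          unfold HE
          linarith

end Pool.Agent.Work.MP_122e00_nt.Gen
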