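import Pool.Agent.Work.MP_122e00_nt.Two.StmtsTail

set_option autoImplicit false

/-!
# Upper bounds for shifted divisor sums, all `r = s + 1`: definitions

`F = d_r`.  A scheme gives a function `H` with `F ^ 2 ≤ H * B`, where `B` is a divisor sum of level
`1 / 2 - θ` (the sum of `gs ψ` over the factorisations); `H` is a sum of structure sums.
-/

namespace Pool.Agent.Work.MP_122e00_nt.Gen

open Finset Filter Topology MeasureTheory

open scoped ArithmeticFunction.vonMangoldt ArithmeticFunction.zeta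

open Two

/-- The weight of a factorisation: the sum over the omitted part. -/
noncomputable def gs {s : ℕ} (ψ : (Fin s → ℝ) → ℝ) (v : Fin (s + 1) → ℝ) : ℝ :=
  ∑ i : Fin (s + 1), ψ (fun j => v (i.succAbove j))

/-- Add `t` to part `i`. -/
noncomputable def ad {s : ℕ} (w : Fin (s + 1) → ℝ) (i : Fin (s + 1)) (t : ℝ) :
    Fin (s + 1) → ℝ :=
  fun q => if q = i then w q + t else w q

/-- The sum of `g` over all placements of the marks. -/
noncomputable def Pl {s k : ℕ} (g : (Fin (s + 1) → ℝ) → ℝ) (x : Fin k → ℝ)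
    (v : Fin (s + 1) → ℝ) : ℝ :=
  ∑ c : Fin k → Fin (s + 1), g (fun q => v q + ∑ j, if c j = q then x j else 0)

/-- The chain of marks stops: the total is at least `c`, before the last mark it was less. -/
def stp {k : ℕ} (c : ℝ) (x : Fin (k + 1) → ℝ) : Prop :=
  c ≤ ∑ j, x j ∧ ∑ j : Fin k, x j.castSucc < c

/-- The indicator weight of level `1 / 2 - θ`. -/
noncomputable def ps (s : ℕ) (θ : ℝ) (y : Fin s → ℝ) : ℝ :=
  ({y : Fin s → ℝ | (∀ i, 0 ≤ y i) ∧ ∑ i, y i ≤ 1 / 2 - θ}.indicator fun _ => 1) y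

open Classical in
/-- The structure function of the simplest scheme: marks until the total is at least `c`. -/
noncomputable def FB (s : ℕ) (c : ℝ) :
    (k : ℕ) → (Fin k → ℝ) → (Fin (s + 1) → ℝ) → ℝ
  | 0 => fun _ _ => 0
  | k + 1 => fun x _ => if stp c x then ((s : ℝ) + 1) ^ (2 * (k + 1)) else 0

/-- The shifted divisor sum. -/
noncomputable def DS (s h lo hi : ℕ) : ℝ :=
  ∑ n ∈ Finset.Ioc lo hi, (((ζ : ArithmeticFunction ℕ) ^ (s + 1)) n : ℝ) *
    (((ζ : ArithmeticFunction ℕ) ^ (s + 1)) (n + h) : ℝ)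

/-- `F ^ 2 ≤ H * B`, up to a negligible quantity. -/
def Dom (s : ℕ) (ψ : (Fin s → ℝ) → ℝ) (H : ℝ → ℕ → ℝ) : Prop :=
  ∀ᶠ X : ℝ in atTop, ∀ n : ℕ, X / Real.log X ≤ (n : ℝ) → (n : ℝ) ≤ X →
    0 ≤ H X n ∧ ∃ l : ℝ, 0 ≤ l ∧ l ≤ X⁻¹ ∧
      ((((ζ : ArithmeticFunction ℕ) ^ (s + 1)) n : ℝ) - l) ^ 2 ≤
        H X n * TS (Real.log X) s 0 n (fun _ v => gs ψ v)

/-- The mean value of `H`, weighted with the divisor sum at the shifted argument, is at most `I`
(in units of `Csing s h * ∫ ψ`). -/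
def Mean (s h : ℕ) (ψ : (Fin s → ℝ) → ℝ) (H : ℝ → ℕ → ℝ) (I : ℝ) : Prop :=
  ∀ δ : ℝ, 0 < δ → ∀ᶠ X : ℝ in atTop, ∀ z : ℤ, z.natAbs = h →
    ∑ n ∈ Finset.Ioc ⌊X / Real.log X⌋₊ ⌊X⌋₊, Apsi ψ X z n * H X n ≤
      (Csing s h * (∫ y in O1 s, ψ y) * I + δ) * (X * (Real.log X) ^ (2 * s))

end Pool.Agent.Work.MP_122e00_nt.Gen
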